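import Pool.Agent.PAB.Defs

set_option autoImplicit false

namespace Pool.Agent.PAB

/-- bound for the search -/
def bd (L : List (List (ℕ × Bool))) : ℕ := (L.flatten.length + 2) ^ 2

/-! ### combinators -/

section comb
variable {α β : Type} [Primcodable α] [Primcodable β]
open Primrec

theorem pr_all {f : α → List β} {p : α → β → Bool} (hf : Primrec f) (hp : Primrec₂ p) :
    Primrec fun a => (f a).all (p a) :=
  (Primrec.list_foldr (h := fun a (x : β × Bool) => p a x.1 && x.2) hf (Primrec.const true)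
    (Primrec.and.comp (hp.comp fst (fst.comp snd)) (snd.comp snd)).to₂).of_eq fun a => by
      induction f a <;> simp [*]

theorem pr_any {f : α → List β} {p : α → β → Bool} (hf : Primrec f) (hp : Primrec₂ p) :
    Primrec fun a => (f a).any (p a) :=
  (Primrec.list_foldr (h := fun a (x : β × Bool) => p a x.1 || x.2) hf (Primrec.const false)
    (Primrec.or.comp (hp.comp fst (fst.comp snd)) (snd.comp snd)).to₂).of_eq fun a => by
      induction f a <;> simp [*]

theorem pr_sum {f : α → List β} {g : α → β → ℕ} (hf : Primrec f) (hg : Primrec₂ g) :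
    Primrec fun a => ((f a).map (g a)).sum :=
  (Primrec.list_foldr (h := fun a (x : β × ℕ) => g a x.1 + x.2) hf (Primrec.const 0)
    (Primrec.nat_add.comp (hg.comp fst (fst.comp snd)) (snd.comp snd)).to₂).of_eq fun a => by
      induction f a <;> simp [*]

theorem pr_count [BEq β] [LawfulBEq β] {f : α → List β} {g : α → β} (hf : Primrec f)
    (hg : Primrec g) : Primrec fun a => (f a).count (g a) := by
  classical
  refine (Primrec.list_foldr
    (h := fun a (x : β × ℕ) => bif decide (x.1 = g a) then x.2 + 1 else x.2) hf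
    (Primrec.const 0)
    (Primrec.cond (Primrec.eq.comp (fst.comp snd) (hg.comp fst)).decide
      (Primrec.succ.comp (snd.comp snd)) (snd.comp snd)).to₂).of_eq fun a => ?_
  induction f a with
  | nil => simp
  | cons b l ih =>
    simp only [List.foldr_cons, ih, List.count_cons]
    by_cases h : b = g a
    · simp [h]
    · simp [h]

end comb

/-- words -/
abbrev W := List (ℕ × Bool)

/-! ### the Boolean test -/

/-- exponent sums `≡ 0 (mod r)` -/
def e0 (r : ℕ) (w : W) : Bool :=
  w.all fun x => w.count (x.1, true) % r == w.count (x.1, false) % r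

def sameB (r : ℕ) (w : W) (s t : ℕ) : Bool :=
  (w.getD s (0, true)).1 == (w.getD t (0, true)).1 &&
  w.all fun x =>
    ((pre w s).count (x.1, true) + (pre w t).count (x.1, false)) % r ==
      ((pre w s).count (x.1, false) + (pre w t).count (x.1, true)) % r

def sg (p : ℕ) (w : W) (s : ℕ) : ℕ := bif (w.getD s (0, true)).2 then 1 else p - 1

def tm (p r : ℕ) (w : W) (t s : ℕ) : ℕ := bif sameB r w s t then sg p w s else 0

def b1 (p r : ℕ) (w : W) : Bool :=
  e0 r w && (List.range w.length).all fun t =>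
    ((List.range w.length).map (tm p r w t)).sum % p == 0

/-- `[v = i]` -/
def ind (v i : ℕ) : ℕ := bif v == i then 1 else 0

/-- one step of the Heisenberg evaluation -/
def hst (p i j : ℕ) (x : ℕ × Bool) (st : ℕ × ℕ) : ℕ × ℕ :=
  bif x.2 then (st.1 + ind x.1 j, st.2 + ind x.1 i * st.1)
  else (st.1 + (p - 1) * ind x.1 j, st.2 + (p - 1) * (ind x.1 i * st.1) + ind x.1 i * ind x.1 j)

def hcN (p i j : ℕ) (w : W) : ℕ × ℕ := w.foldr (hst p i j) (0, 0)

def b2 (p : ℕ) (w : W) : Bool :=
  e0 p w && w.all fun x => w.all fun y => (hcN p x.1 y.1 w).2 % p == 0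

def Dfun (L : List W) : Bool :=
  !(((List.range (bd L + 1)).any fun p => decide (2 ≤ p) &&
      (List.range (bd L + 1)).any fun r => decide (2 ≤ r) && L.all fun w => b1 p r w) ||
    ((List.range (bd L + 1)).any fun p => decide (2 ≤ p) && L.all fun w => b2 p w))

/-! ### primitive recursiveness -/

section prim
variable {α : Type} [Primcodable α]
open Primrec

theorem pr_modeq {f g r : α → ℕ} (hf : Primrec f) (hg : Primrec g) (hr : Primrec r) :
    Primrec fun a => f a % r a == g a % r a :=
  Primrec.beq.comp (Primrec.nat_mod.comp hf hr) (Primrec.nat_mod.comp hg hr)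

theorem pr_e0 {r : α → ℕ} {w : α → W} (hr : Primrec r) (hw : Primrec w) :
    Primrec fun a => e0 (r a) (w a) := by
  unfold e0
  refine pr_all hw (Primrec₂.mk ?_)
  refine pr_modeq (pr_count (hw.comp fst) (Primrec.pair (fst.comp snd) (Primrec.const true)))
    (pr_count (hw.comp fst) (Primrec.pair (fst.comp snd) (Primrec.const false))) (hr.comp fst)

theorem pr_getD {w : α → W} {s : α → ℕ} (hw : Primrec w) (hs : Primrec s) :
    Primrec fun a => (w a).getD (s a) (0, true) :=
  (Primrec.list_getD (0, true)).comp hw hs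

theorem pr_pre {w : α → W} {s : α → ℕ} (hw : Primrec w) (hs : Primrec s) :
    Primrec fun a => pre (w a) (s a) := by
  have h : Primrec fun a => bif ((w a).getD (s a) (0, true)).2 then (w a).take (s a)
      else (w a).take (s a + 1) :=
    Primrec.cond (snd.comp (pr_getD hw hs)) (Primrec.list_take.comp hs hw)
      (Primrec.list_take.comp (Primrec.succ.comp hs) hw)
  refine h.of_eq fun a => ?_
  unfold pre
  cases ((w a).getD (s a) (0, true)).2 <;> rfl

theorem pr_sameB {r s t : α → ℕ} {w : α → W} (hr : Primrec r) (hw : Primrec w) (hs : Primrec s)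
    (ht : Primrec t) : Primrec fun a => sameB (r a) (w a) (s a) (t a) := by
  unfold sameB
  refine Primrec.and.comp (Primrec.beq.comp (fst.comp (pr_getD hw hs)) (fst.comp (pr_getD hw ht))) ?_
  refine pr_all hw (Primrec₂.mk ?_)
  have hps : Primrec fun a : α × (ℕ × Bool) => pre (w a.1) (s a.1) :=
    pr_pre (hw.comp fst) (hs.comp fst)
  have hpt : Primrec fun a : α × (ℕ × Bool) => pre (w a.1) (t a.1) :=
    pr_pre (hw.comp fst) (ht.comp fst)
  have hT : Primrec fun a : α × (ℕ × Bool) => (a.2.1, true) :=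
    Primrec.pair (fst.comp snd) (Primrec.const true)
  have hF : Primrec fun a : α × (ℕ × Bool) => (a.2.1, false) :=
    Primrec.pair (fst.comp snd) (Primrec.const false)
  exact pr_modeq (Primrec.nat_add.comp (pr_count hps hT) (pr_count hpt hF))
    (Primrec.nat_add.comp (pr_count hps hF) (pr_count hpt hT)) (hr.comp fst)

theorem pr_sg {p s : α → ℕ} {w : α → W} (hp : Primrec p) (hw : Primrec w) (hs : Primrec s) :
    Primrec fun a => sg (p a) (w a) (s a) := by
  unfold sg
  exact Primrec.cond (snd.comp (pr_getD hw hs)) (Primrec.const 1)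
    (Primrec.nat_sub.comp hp (Primrec.const 1))

theorem pr_tm {p r s t : α → ℕ} {w : α → W} (hp : Primrec p) (hr : Primrec r) (hw : Primrec w)
    (ht : Primrec t) (hs : Primrec s) : Primrec fun a => tm (p a) (r a) (w a) (t a) (s a) := by
  unfold tm
  exact Primrec.cond (pr_sameB hr hw hs ht) (pr_sg hp hw hs) (Primrec.const 0)

theorem pr_b1 {p r : α → ℕ} {w : α → W} (hp : Primrec p) (hr : Primrec r) (hw : Primrec w) :
    Primrec fun a => b1 (p a) (r a) (w a) := by
  unfold b1
  refine Primrec.and.comp (pr_e0 hr hw) ?_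
  have hrg : Primrec fun a => List.range (w a).length :=
    Primrec.list_range.comp (Primrec.list_length.comp hw)
  refine pr_all hrg (Primrec₂.mk ?_)
  refine Primrec.beq.comp (Primrec.nat_mod.comp ?_ (hp.comp fst)) (Primrec.const 0)
  refine pr_sum (hrg.comp fst) (Primrec₂.mk ?_)
  exact pr_tm (hp.comp (fst.comp fst)) (hr.comp (fst.comp fst)) (hw.comp (fst.comp fst))
    (snd.comp fst) snd

theorem pr_ind {v i : α → ℕ} (hv : Primrec v) (hi : Primrec i) :
    Primrec fun a => ind (v a) (i a) := by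
  unfold ind
  exact Primrec.cond (Primrec.beq.comp hv hi) (Primrec.const 1) (Primrec.const 0)

theorem pr_hst {p i j : α → ℕ} {x : α → ℕ × Bool} {st : α → ℕ × ℕ} (hp : Primrec p)
    (hi : Primrec i) (hj : Primrec j) (hx : Primrec x) (h0 : Primrec st) :
    Primrec fun a => hst (p a) (i a) (j a) (x a) (st a) := by
  unfold hst
  have h1 : Primrec fun a => ind (x a).1 (i a) := pr_ind (fst.comp hx) hi
  have h2 : Primrec fun a => ind (x a).1 (j a) := pr_ind (fst.comp hx) hj
  have h3 : Primrec fun a => (st a).1 := fst.comp h0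
  have h4 : Primrec fun a => (st a).2 := snd.comp h0
  have h5 : Primrec fun a => p a - 1 := Primrec.nat_sub.comp hp (Primrec.const 1)
  have h6 : Primrec fun a => ind (x a).1 (i a) * (st a).1 := Primrec.nat_mul.comp h1 h3
  exact Primrec.cond (snd.comp hx)
    (Primrec.pair (Primrec.nat_add.comp h3 h2) (Primrec.nat_add.comp h4 h6))
    (Primrec.pair (Primrec.nat_add.comp h3 (Primrec.nat_mul.comp h5 h2))
      (Primrec.nat_add.comp (Primrec.nat_add.comp h4 (Primrec.nat_mul.comp h5 h6))
        (Primrec.nat_mul.comp h1 h2)))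

theorem pr_hcN {p i j : α → ℕ} {w : α → W} (hp : Primrec p)
    (hi : Primrec i) (hj : Primrec j) (hw : Primrec w) :
    Primrec fun a => hcN (p a) (i a) (j a) (w a) := by
  unfold hcN
  exact Primrec.list_foldr (h := fun a (x : (ℕ × Bool) × (ℕ × ℕ)) => hst (p a) (i a) (j a) x.1 x.2)
    hw (Primrec.const (0, 0))
    (pr_hst (hp.comp fst) (hi.comp fst) (hj.comp fst) (fst.comp snd) (snd.comp snd)).to₂

theorem pr_b2 {p : α → ℕ} {w : α → W} (hp : Primrec p) (hw : Primrec w) :
    Primrec fun a => b2 (p a) (w a) := by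
  unfold b2
  refine Primrec.and.comp (pr_e0 hp hw) ?_
  refine pr_all hw (Primrec₂.mk ?_)
  refine pr_all (hw.comp fst) (Primrec₂.mk ?_)
  refine Primrec.beq.comp (Primrec.nat_mod.comp (snd.comp ?_) (hp.comp (fst.comp fst)))
    (Primrec.const 0)
  exact pr_hcN (hp.comp (fst.comp fst)) (fst.comp (snd.comp fst)) (fst.comp snd)
    (hw.comp (fst.comp fst))

theorem pr_two_le {p : α → ℕ} (hp : Primrec p) : Primrec fun a => decide (2 ≤ p a) :=
  (Primrec.nat_le.comp (Primrec.const 2) hp).decide

theorem pr_bd : Primrec bd := by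
  unfold bd
  have h : Primrec fun L : List W => L.flatten.length + 2 :=
    Primrec.nat_add.comp (Primrec.list_length.comp Primrec.list_flatten) (Primrec.const 2)
  exact (Primrec.nat_mul.comp h h).of_eq fun L => by rw [sq]

theorem pr_D : Primrec Dfun := by
  unfold Dfun
  have hR : Primrec fun L : List W => List.range (bd L + 1) :=
    Primrec.list_range.comp (Primrec.succ.comp pr_bd)
  refine Primrec.not.comp (Primrec.or.comp ?_ ?_)
  · refine pr_any hR (Primrec₂.mk (Primrec.and.comp (pr_two_le snd) ?_))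
    refine pr_any (hR.comp fst) (Primrec₂.mk (Primrec.and.comp (pr_two_le snd) ?_))
    refine pr_all (fst.comp fst) (Primrec₂.mk ?_)
    exact pr_b1 (snd.comp (fst.comp fst)) (snd.comp fst) snd
  · refine pr_any hR (Primrec₂.mk (Primrec.and.comp (pr_two_le snd) ?_))
    refine pr_all fst (Primrec₂.mk ?_)
    exact pr_b2 (snd.comp fst) snd

end prim

/-! ### correctness -/

theorem modeq_beq {a b r : ℕ} : ((a % r == b % r) = true) ↔ (r : ℤ) ∣ (a : ℤ) - b := by
  rw [beq_iff_eq]
  constructor
  · intro h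
    have h' : b ≡ a [MOD r] := h.symm
    exact (Nat.modEq_iff_dvd.1 h')
  · intro h
    exact (Nat.modEq_iff_dvd.2 h : b ≡ a [MOD r]).symm

theorem count_zero {w u : W} (hu : ∀ x ∈ u, x ∈ w) {i : ℕ} (hi : ∀ x ∈ w, x.1 ≠ i) (b : Bool) :
    u.count (i, b) = 0 := by
  rw [List.count_eq_zero]
  intro h
  exact hi _ (hu _ h) rfl

theorem e0_iff (r : ℕ) (w : W) : e0 r w = true ↔ ∀ i, (r : ℤ) ∣ esum w i := by
  unfold e0
  rw [List.all_eq_true]
  constructor
  · intro h i
    by_cases hi : ∃ x ∈ w, x.1 = i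
    · obtain ⟨x, hx, rfl⟩ := hi
      exact modeq_beq.1 (h x hx)
    · push Not at hi
      unfold esum
      rw [count_zero (fun x hx => hx) hi, count_zero (fun x hx => hx) hi]
      simp
  · intro h x _
    exact modeq_beq.2 (h x.1)

theorem pre_sub (w : W) (s : ℕ) : ∀ x ∈ pre w s, x ∈ w := by
  intro x hx
  unfold pre at hx
  split at hx <;> exact List.mem_of_mem_take hx

theorem sameB_iff (r : ℕ) (w : W) (s t : ℕ) : sameB r w s t = true ↔ same r w s t := by
  unfold sameB same
  rw [Bool.and_eq_true, List.all_eq_true, beq_iff_eq]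
  refine and_congr Iff.rfl ?_
  have key : ∀ j : ℕ, (((pre w s).count (j, true) + (pre w t).count (j, false)) % r ==
      ((pre w s).count (j, false) + (pre w t).count (j, true)) % r) = true ↔
      (r : ℤ) ∣ esum (pre w s) j - esum (pre w t) j := by
    intro j
    rw [modeq_beq]
    unfold esum
    push_cast
    constructor <;> intro h <;> convert h using 1 <;> ring
  constructor
  · intro h j
    by_cases hj : ∃ x ∈ w, x.1 = j
    · obtain ⟨x, hx, rfl⟩ := hj
      exact (key _).1 (h x hx)
    · push Not at hj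
      unfold esum
      rw [count_zero (pre_sub w s) hj, count_zero (pre_sub w s) hj,
        count_zero (pre_sub w t) hj, count_zero (pre_sub w t) hj]
      simp
  · intro h x _
    exact (key _).2 (h x.1)

theorem sum_map_range (n : ℕ) (f : ℕ → ℕ) :
    ((List.range n).map f).sum = ∑ s ∈ Finset.range n, f s := by
  induction n with
  | zero => simp
  | succ n ih => rw [List.range_succ, List.map_append, List.sum_append, ih,
      Finset.sum_range_succ]; simp

theorem sg_modeq {p : ℕ} (hp : 1 ≤ p) (w : W) (s : ℕ) : (sg p w s : ℤ) ≡ sgn w s [ZMOD p] := by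
  unfold sg sgn
  cases (w.getD s (0, true)).2
  · simp only [cond_false, Bool.false_eq_true, if_false]
    rw [Nat.cast_sub hp]
    refine (Int.modEq_iff_dvd.2 ?_)
    refine ⟨-1, ?_⟩
    push_cast
    ring
  · simp

theorem b1_iff {p r : ℕ} (hp : 1 ≤ p) (w : W) : b1 p r w = true ↔ Cond p r w := by
  classical
  unfold b1 Cond
  rw [Bool.and_eq_true, e0_iff, List.all_eq_true]
  refine and_congr Iff.rfl ?_
  have key : ∀ t : ℕ, (((List.range w.length).map (tm p r w t)).sum % p == 0) = true ↔
      (p : ℤ) ∣ ∑ s ∈ (Finset.range w.length).filter (fun s => same r w s t), sgn w s := by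
    intro t
    rw [sum_map_range, beq_iff_eq, ← Nat.dvd_iff_mod_eq_zero, ← Int.natCast_dvd_natCast]
    have h1 : ((∑ s ∈ Finset.range w.length, tm p r w t s : ℕ) : ℤ) ≡
        ∑ s ∈ (Finset.range w.length).filter (fun s => same r w s t), sgn w s [ZMOD p] := by
      rw [Finset.sum_filter]
      push_cast
      refine Int.ModEq.sum fun s _ => ?_
      unfold tm
      by_cases h : same r w s t
      · rw [(sameB_iff r w s t).2 h, if_pos h]
        exact sg_modeq hp w s
      · have : sameB r w s t = false := by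
          rw [← Bool.not_eq_true, sameB_iff]; exact h
        rw [this, if_neg h]
        rfl
    rw [← Int.modEq_zero_iff_dvd, ← Int.modEq_zero_iff_dvd]
    exact ⟨fun h => h1.symm.trans h, fun h => h1.trans h⟩
  constructor
  · intro h t ht
    exact (key t).1 (h t (List.mem_range.2 ht))
  · intro h t ht
    exact (key t).2 (h t (List.mem_range.1 ht))

/-- the value of a word in the integral Heisenberg group -/
noncomputable def hv (w : W) (i j : ℕ) : Heis ℤ :=
  FreeGroup.lift (fun v => (⟨if v = i then 1 else 0, if v = j then 1 else 0, 0⟩ : Heis ℤ))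
    (FreeGroup.mk w)

theorem hv_nil (i j : ℕ) : hv [] i j = 1 := by
  unfold hv
  rw [FreeGroup.lift_mk]
  simp

theorem hv_cons (x : ℕ × Bool) (w : W) (i j : ℕ) :
    hv (x :: w) i j = (bif x.2 then
      (⟨if x.1 = i then 1 else 0, if x.1 = j then 1 else 0, 0⟩ : Heis ℤ)
      else (⟨if x.1 = i then 1 else 0, if x.1 = j then 1 else 0, 0⟩ : Heis ℤ)⁻¹) * hv w i j := by
  unfold hv
  rw [FreeGroup.lift_mk, FreeGroup.lift_mk, List.map_cons, List.prod_cons]

theorem ind_cast (v i : ℕ) : ((ind v i : ℕ) : ℤ) = if v = i then 1 else 0 := by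
  unfold ind
  by_cases h : v = i
  · simp [h]
  · have hb : (v == i) = false := by simpa using h
    rw [hb, if_neg h]
    rfl

theorem ofEq {p : ℕ} {a b : ℤ} (h : a = b) : a ≡ b [ZMOD p] := h ▸ Int.ModEq.refl _

theorem hcN_modeq {p : ℕ} (hp : 1 ≤ p) (i j : ℕ) (w : W) :
    ((hcN p i j w).1 : ℤ) ≡ (hv w i j).b [ZMOD p] ∧
    ((hcN p i j w).2 : ℤ) ≡ (hv w i j).c [ZMOD p] := by
  induction w with
  | nil => rw [hv_nil]; exact ⟨Int.ModEq.refl _, Int.ModEq.refl _⟩
  | cons x w ih =>
    obtain ⟨ih1, ih2⟩ := ih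
    have hs : hcN p i j (x :: w) = hst p i j x (hcN p i j w) := rfl
    have hm : (((p - 1 : ℕ) : ℤ)) ≡ -1 [ZMOD p] := by
      rw [Nat.cast_sub hp]
      exact Int.modEq_iff_dvd.2 ⟨-1, by push_cast; ring⟩
    rw [hs, hv_cons]
    unfold hst
    cases x.2
    · simp only [cond_false]
      push_cast
      rw [ind_cast, ind_cast]
      simp only [Heis.mul_b, Heis.mul_c, Heis.inv_b, Heis.inv_c, Heis.inv_a]
      constructor
      · have h1 := ih1.add (hm.mul_right (if x.1 = j then (1 : ℤ) else 0))
        refine h1.trans (ofEq ?_)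
        ring
      · have h1 := (ih2.add ((hm.mul (ih1.mul_left (if x.1 = i then (1 : ℤ) else 0))))).add_right
          ((if x.1 = i then (1 : ℤ) else 0) * (if x.1 = j then (1 : ℤ) else 0))
        refine h1.trans (ofEq ?_)
        ring
    · simp only [cond_true]
      push_cast
      rw [ind_cast, ind_cast]
      simp only [Heis.mul_b, Heis.mul_c]
      constructor
      · have h1 := ih1.add_right (if x.1 = j then (1 : ℤ) else 0)
        refine h1.trans (ofEq ?_)
        ring
      · have h1 := ih2.add (ih1.mul_left (if x.1 = i then (1 : ℤ) else 0))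
        refine h1.trans (ofEq ?_)
        ring

theorem hv_zero_left {w : W} {i j : ℕ} (hi : ∀ x ∈ w, x.1 ≠ i) : (hv w i j).c = 0 := by
  induction w with
  | nil => rw [hv_nil]; rfl
  | cons x w ih =>
    have h1 := ih fun y hy => hi y (List.mem_cons_of_mem _ hy)
    have h2 : x.1 ≠ i := hi x List.mem_cons_self
    rw [hv_cons]
    cases x.2
    · simp [h1, h2]
    · simp [h1, h2]

theorem hv_zero_right {w : W} {i j : ℕ} (hj : ∀ x ∈ w, x.1 ≠ j) :
    (hv w i j).b = 0 ∧ (hv w i j).c = 0 := by
  induction w with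
  | nil => rw [hv_nil]; exact ⟨rfl, rfl⟩
  | cons x w ih =>
    obtain ⟨h1, h3⟩ := ih fun y hy => hj y (List.mem_cons_of_mem _ hy)
    have h2 : x.1 ≠ j := hj x List.mem_cons_self
    rw [hv_cons]
    cases x.2
    · simp [h1, h2, h3]
    · simp [h1, h2, h3]

theorem b2_iff {p : ℕ} (hp : 1 ≤ p) (w : W) : b2 p w = true ↔ CondH p w := by
  unfold b2 CondH
  rw [Bool.and_eq_true, e0_iff]
  refine and_congr Iff.rfl ?_
  have key : ∀ i j : ℕ, ((hcN p i j w).2 % p == 0) = true ↔ (p : ℤ) ∣ hc w i j := by
    intro i j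
    rw [beq_iff_eq, ← Nat.dvd_iff_mod_eq_zero, ← Int.natCast_dvd_natCast]
    have h1 := (hcN_modeq hp i j w).2
    have h2 : hc w i j = (hv w i j).c := rfl
    rw [h2, ← Int.modEq_zero_iff_dvd, ← Int.modEq_zero_iff_dvd]
    exact ⟨fun h => h1.symm.trans h, fun h => h1.trans h⟩
  rw [List.all_eq_true]
  constructor
  · intro h i j
    by_cases hi : ∃ x ∈ w, x.1 = i
    · by_cases hj : ∃ x ∈ w, x.1 = j
      · obtain ⟨x, hx, rfl⟩ := hi
        obtain ⟨y, hy, rfl⟩ := hj
        exact (key _ _).1 (List.all_eq_true.1 (h x hx) y hy)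
      · push Not at hj
        have : hc w i j = 0 := (hv_zero_right hj).2
        rw [this]; exact dvd_zero _
    · push Not at hi
      have : hc w i j = 0 := hv_zero_left hi
      rw [this]; exact dvd_zero _
  · intro h x _
    rw [List.all_eq_true]
    intro y _
    exact (key _ _).2 (h x.1 y.1)

/-- Computability of the test.

PROOF.  Everything is a bounded search over primitive recursive functions of lists. -/
theorem exists_D : ∃ D : List (List (ℕ × Bool)) → Bool, Computable D ∧
    ∀ L, (D L = true ↔ ¬ ((∃ p r : ℕ, 2 ≤ p ∧ p ≤ bd L ∧ 2 ≤ r ∧ r ≤ bd L ∧ ∀ w ∈ L, Cond p r w) ∨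
      (∃ p : ℕ, 2 ≤ p ∧ p ≤ bd L ∧ ∀ w ∈ L, CondH p w))) := by
  refine ⟨Dfun, pr_D.to_comp, fun L => ?_⟩
  unfold Dfun
  rw [Bool.not_eq_true', ← Bool.not_eq_true, Bool.or_eq_true, List.any_eq_true, List.any_eq_true]
  refine not_congr (or_congr ?_ ?_)
  · constructor
    · rintro ⟨p, hp, h⟩
      rw [Bool.and_eq_true, decide_eq_true_iff, List.any_eq_true] at h
      obtain ⟨h2, r, hr, h⟩ := h
      rw [Bool.and_eq_true, decide_eq_true_iff, List.all_eq_true] at h
      exact ⟨p, r, h2, Nat.lt_succ_iff.1 (List.mem_range.1 hp), h.1,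
        Nat.lt_succ_iff.1 (List.mem_range.1 hr), fun w hw => (b1_iff (by omega) w).1 (h.2 w hw)⟩
    · rintro ⟨p, r, h2, hp, h2', hr, h⟩
      refine ⟨p, List.mem_range.2 (Nat.lt_succ_iff.2 hp), ?_⟩
      rw [Bool.and_eq_true, decide_eq_true_iff, List.any_eq_true]
      refine ⟨h2, r, List.mem_range.2 (Nat.lt_succ_iff.2 hr), ?_⟩
      rw [Bool.and_eq_true, decide_eq_true_iff, List.all_eq_true]
      exact ⟨h2', fun w hw => (b1_iff (by omega) w).2 (h w hw)⟩
  · constructor
    · rintro ⟨p, hp, h⟩
      rw [Bool.and_eq_true, decide_eq_true_iff, List.all_eq_true] at h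
      exact ⟨p, h.1, Nat.lt_succ_iff.1 (List.mem_range.1 hp),
        fun w hw => (b2_iff (by omega) w).1 (h.2 w hw)⟩
    · rintro ⟨p, h2, hp, h⟩
      refine ⟨p, List.mem_range.2 (Nat.lt_succ_iff.2 hp), ?_⟩
      rw [Bool.and_eq_true, decide_eq_true_iff, List.all_eq_true]
      exact ⟨h2, fun w hw => (b2_iff (by omega) w).2 (h w hw)⟩

end Pool.Agent.PAB
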