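import Mathlib

/-!
# Definitions for project PAB (MP_b9f16b_lc, decision problem for abelian varieties of groups)
-/

set_option autoImplicit false

open scoped commutatorElement

namespace Pool.Agent.PAB

/-- `G` satisfies all the words of `L` as laws: this is verbatim the hypothesis on `G` in the frozen
statements of MP_b9f16b_lc. -/
def Sat (L : List (List (ℕ × Bool))) (G : Type) [Group G] : Prop :=
  ∀ w ∈ L, ∀ f : ℕ → G, FreeGroup.lift f (FreeGroup.mk w) = 1

/-- `G` is commutative. -/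
def Comm (G : Type) [Group G] : Prop := ∀ a b : G, a * b = b * a

/-- An element `s` of `G` is *small* if one of the following holds (`Z` is the centre of `G`; the
exponents `a`, `b` may depend on `g`):
(1) for every `g` some `⁅s ^ (2 ^ a), g ^ (2 ^ b)⁆` lies in `Z` (for instance if `s ^ (2 ^ a) ∈ Z`);
(2) for every `g` some power `⁅s, g⁆ ^ (3 * 2 ^ a)` lies in `Z`;
(3) for every `g` some powers `s ^ (3 * 2 ^ a)` and `(s * g s g⁻¹) ^ (3 * 2 ^ b)` lie in `Z`;
(4) for every `g` some power `⁅⁅⁅g, s⁆, s⁆, s⁆ ^ (2 ^ a)` lies in `Z` (left 3-Engel elements);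
(5) the same with four times `s`, for `s` and for `s⁻¹` (left 4-Engel elements). -/
def Small {G : Type} [Group G] (s : G) : Prop :=
  (∀ g : G, ∃ a b : ℕ, ⁅s ^ (2 ^ a), g ^ (2 ^ b)⁆ ∈ Subgroup.center G) ∨
  (∀ g : G, ∃ a : ℕ, ⁅s, g⁆ ^ (3 * 2 ^ a) ∈ Subgroup.center G) ∨
  (∀ g : G, ∃ a b : ℕ, s ^ (3 * 2 ^ a) ∈ Subgroup.center G ∧
    (s * (g * s * g⁻¹)) ^ (3 * 2 ^ b) ∈ Subgroup.center G) ∨
  (∀ g : G, ∃ a : ℕ, ⁅⁅⁅g, s⁆, s⁆, s⁆ ^ (2 ^ a) ∈ Subgroup.center G) ∨
  (∀ g : G, ∃ a b : ℕ, ⁅⁅⁅⁅g, s⁆, s⁆, s⁆, s⁆ ^ (2 ^ a) ∈ Subgroup.center G ∧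
    ⁅⁅⁅⁅g, s⁻¹⁆, s⁻¹⁆, s⁻¹⁆, s⁻¹⁆ ^ (2 ^ b) ∈ Subgroup.center G)

/-- The smallest class of groups that contains the finite and the commutative groups and is closed
under: `G` is in the class if the quotient of `G` by the normal closure of a set of small elements is;
extensions; groups all of whose finitely generated subgroups are in the class; and groups that are
residually in the class. -/
inductive Tame : (G : Type) → [Group G] → Prop
  | finite (G : Type) [Group G] (h : Finite G) : Tame G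
  | comm (G : Type) [Group G] (h : Comm G) : Tame G
  | small (G : Type) [Group G] (S : Set G) (hS : ∀ s ∈ S, Small s)
      (h : Tame (G ⧸ Subgroup.normalClosure S)) : Tame G
  | ext (G : Type) [Group G] (N : Subgroup G) [N.Normal] (h₁ : Tame N) (h₂ : Tame (G ⧸ N)) : Tame G
  | loc (G : Type) [Group G] (h : ∀ H : Subgroup G, H.FG → Tame H) : Tame G
  | resid (G : Type) [Group G] (N : G → Subgroup G) (hN : ∀ g, (N g).Normal)
      (h₁ : ∀ g : G, g ≠ 1 → g ∉ N g) (h₂ : ∀ g : G, g ≠ 1 → Tame (G ⧸ N g)) : Tame G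

/-- exponent sum of the variable `i` in the word `w` -/
def esum (w : List (ℕ × Bool)) (i : ℕ) : ℤ := (w.count (i, true) : ℤ) - (w.count (i, false) : ℤ)

/-- The greatest common divisor of all exponent sums of all words of `L` (`0` if they all vanish). -/
def expo (L : List (List (ℕ × Bool))) : ℕ :=
  (L.flatMap fun w => w.map fun x => (esum w x.1).natAbs).foldr Nat.gcd 0

/-- The affine group of a commutative ring: `(b, u) * (b', u') = (b + u b', u u')`. -/
@[ext] structure Aff (R : Type) [CommRing R] where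
  b : R
  u : Rˣ

namespace Aff
variable {R : Type} [CommRing R]

instance : Mul (Aff R) := ⟨fun x y => ⟨x.b + x.u * y.b, x.u * y.u⟩⟩
instance : One (Aff R) := ⟨⟨0, 1⟩⟩
instance : Inv (Aff R) := ⟨fun x => ⟨-(↑(x.u⁻¹) * x.b), x.u⁻¹⟩⟩

@[simp] theorem mul_b (x y : Aff R) : (x * y).b = x.b + x.u * y.b := rfl
@[simp] theorem mul_u (x y : Aff R) : (x * y).u = x.u * y.u := rfl
@[simp] theorem one_b : (1 : Aff R).b = 0 := rfl
@[simp] theorem one_u : (1 : Aff R).u = 1 := rfl
@[simp] theorem inv_b (x : Aff R) : (x⁻¹).b = -(↑(x.u⁻¹) * x.b) := rfl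
@[simp] theorem inv_u (x : Aff R) : (x⁻¹).u = x.u⁻¹ := rfl

instance : Group (Aff R) := Group.ofLeftAxioms
  (fun x y z => by
    ext
    · simp; ring
    · simp [mul_assoc])
  (fun x => by ext <;> simp)
  (fun x => by ext <;> simp)

end Aff

/-- The Heisenberg group of a commutative ring: `(a, b, c) * (a', b', c') = (a + a', b + b', c + c' + a b')`. -/
@[ext] structure Heis (R : Type) [CommRing R] where
  a : R
  b : R
  c : R

namespace Heis
variable {R : Type} [CommRing R]

instance : Mul (Heis R) := ⟨fun x y => ⟨x.a + y.a, x.b + y.b, x.c + y.c + x.a * y.b⟩⟩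
instance : One (Heis R) := ⟨⟨0, 0, 0⟩⟩
instance : Inv (Heis R) := ⟨fun x => ⟨-x.a, -x.b, -x.c + x.a * x.b⟩⟩

@[simp] theorem mul_a (x y : Heis R) : (x * y).a = x.a + y.a := rfl
@[simp] theorem mul_b (x y : Heis R) : (x * y).b = x.b + y.b := rfl
@[simp] theorem mul_c (x y : Heis R) : (x * y).c = x.c + y.c + x.a * y.b := rfl
@[simp] theorem one_a : (1 : Heis R).a = 0 := rfl
@[simp] theorem one_b : (1 : Heis R).b = 0 := rfl
@[simp] theorem one_c : (1 : Heis R).c = 0 := rfl
@[simp] theorem inv_a (x : Heis R) : (x⁻¹).a = -x.a := rfl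
@[simp] theorem inv_b (x : Heis R) : (x⁻¹).b = -x.b := rfl
@[simp] theorem inv_c (x : Heis R) : (x⁻¹).c = -x.c + x.a * x.b := rfl

instance : Group (Heis R) := Group.ofLeftAxioms
  (fun x y z => by
    ext
    · simp; ring
    · simp; ring
    · simp; ring)
  (fun x => by ext <;> simp)
  (fun x => by
    ext
    · simp
    · simp
    · simp)

end Heis

/-- sign of the letter at position `s` -/
def sgn (w : List (ℕ × Bool)) (s : ℕ) : ℤ := if (w.getD s (0, true)).2 then 1 else -1

/-- variable of the letter at position `s` -/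
def vr (w : List (ℕ × Bool)) (s : ℕ) : ℕ := (w.getD s (0, true)).1

/-- the initial part that gives the monomial of the Fox derivative at position `s` -/
def pre (w : List (ℕ × Bool)) (s : ℕ) : List (ℕ × Bool) :=
  if (w.getD s (0, true)).2 then w.take s else w.take (s + 1)

/-- `s`, `t` have the same variable and initial parts with exponent vectors congruent modulo `r` -/
def same (r : ℕ) (w : List (ℕ × Bool)) (s t : ℕ) : Prop :=
  vr w s = vr w t ∧ ∀ j : ℕ, (r : ℤ) ∣ esum (pre w s) j - esum (pre w t) j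

open Classical in
/-- The word `w` holds in the wreath product `C_p ≀ C_r`, in terms of Fox derivatives
(`p`, `r` may be `0`). -/
def Cond (p r : ℕ) (w : List (ℕ × Bool)) : Prop :=
  (∀ i : ℕ, (r : ℤ) ∣ esum w i) ∧
  ∀ t < w.length, (p : ℤ) ∣ ∑ s ∈ (Finset.range w.length).filter (fun s => same r w s t), sgn w s

/-- the `(i, j)` coefficient of the word `w` modulo class three -/
def hc (w : List (ℕ × Bool)) (i j : ℕ) : ℤ :=
  (FreeGroup.lift (fun v => (⟨if v = i then 1 else 0, if v = j then 1 else 0, 0⟩ : Heis ℤ))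
    (FreeGroup.mk w)).c

/-- The word `w` holds in the Heisenberg group modulo `p`. -/
def CondH (p : ℕ) (w : List (ℕ × Bool)) : Prop :=
  (∀ i : ℕ, (p : ℤ) ∣ esum w i) ∧ ∀ i j : ℕ, (p : ℤ) ∣ hc w i j

/-- `G` has an abelian normal subgroup with abelian quotient. -/
def Metab (G : Type) [Group G] : Prop :=
  ∃ N : Subgroup G, ∃ _ : N.Normal, Comm N ∧ Comm (G ⧸ N)

/-- Every metabelian group that satisfies `L` is abelian. -/
def PA (L : List (List (ℕ × Bool))) : Prop :=
  ∀ (G : Type) [Group G], Metab G → Sat L G → Comm G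

end Pool.Agent.PAB
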