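import Pool.Agent.PAB.Defs

set_option autoImplicit false

open scoped commutatorElement

namespace Pool.Agent.PAB

theorem metaB (G : Type) [Group G] (N : Subgroup G) [hN : N.Normal] (hNc : Comm N)
    (hQ : Comm (G ⧸ N)) (x y : G) (hxy : ⁅x, y⁆ ≠ 1) :
    ∃ (K : Type) (_ : Field K) (G₁ : Type) (_ : Group G₁) (φ : G →* G₁) (ψ : K → G₁) (χ : G → K),
      Function.Surjective φ ∧ Function.Injective ψ ∧ (∀ k l, ψ (k + l) = ψ k * ψ l) ∧
      ψ 1 = ⁅φ x, φ y⁆ ∧ (∀ g k, φ g * ψ k * (φ g)⁻¹ = ψ (χ g * k)) ∧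
      Subring.closure (Set.range χ) = ⊤ := by
  classical
  letI iN : CommGroup N := { (inferInstance : Group N) with mul_comm := hNc }
  have hcomm : ∀ g h : G, (h * g)⁻¹ * (g * h) ∈ N := by
    intro g h
    have h1 := hQ (QuotientGroup.mk h) (QuotientGroup.mk g)
    rw [← QuotientGroup.mk_mul, ← QuotientGroup.mk_mul, QuotientGroup.eq] at h1
    exact h1
  have ha : ⁅x, y⁆ ∈ N := by
    have := hN.conj_mem _ (hcomm x y) (y * x)
    have e : (y * x) * ((y * x)⁻¹ * (x * y)) * (y * x)⁻¹ = ⁅x, y⁆ := by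
      rw [commutatorElement_def]; group
    rwa [e] at this
  -- conjugation operators
  let c : G → AddMonoid.End (Additive N) := fun g =>
    MonoidHom.toAdditive ((MulAut.conjNormal g : MulAut N).toMonoidHom)
  have c_apply : ∀ (g : G) (n : Additive N), ((Additive.toMul (c g n) : N) : G) =
      g * ((Additive.toMul n : N) : G) * g⁻¹ := fun g n => rfl
  have c_ext : ∀ (u v : AddMonoid.End (Additive N)), (∀ n, ((Additive.toMul (u n) : N) : G) =
      ((Additive.toMul (v n) : N) : G)) → u = v := by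
    intro u v h
    apply AddMonoidHom.ext
    intro n
    exact Additive.toMul.injective (Subtype.ext (h n))
  have c_comm : ∀ g h : G, c g * c h = c h * c g := by
    intro g h
    apply c_ext
    intro n
    have e1 : ((Additive.toMul ((c g * c h) n) : N) : G) =
      g * (h * ((Additive.toMul n : N) : G) * h⁻¹) * g⁻¹ := rfl
    have e2 : ((Additive.toMul ((c h * c g) n) : N) : G) =
      h * (g * ((Additive.toMul n : N) : G) * g⁻¹) * h⁻¹ := rfl
    rw [e1, e2]
    have h3 := hNc ⟨_, hcomm g h⟩ (Additive.toMul n : N)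
    have h4 : (h * g)⁻¹ * (g * h) * ((Additive.toMul n : N) : G) =
      ((Additive.toMul n : N) : G) * ((h * g)⁻¹ * (g * h)) := congrArg Subtype.val h3
    have h5 := congrArg (fun t => (h * g) * t * (g * h)⁻¹) h4
    have h6 : (h * g) * ((h * g)⁻¹ * (g * h) * ((Additive.toMul n : N) : G)) * (g * h)⁻¹ =
      g * (h * ((Additive.toMul n : N) : G) * h⁻¹) * g⁻¹ := by group
    have h7 : (h * g) * (((Additive.toMul n : N) : G) * ((h * g)⁻¹ * (g * h))) * (g * h)⁻¹ =
      h * (g * ((Additive.toMul n : N) : G) * g⁻¹) * h⁻¹ := by group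
    rw [← h6, ← h7]
    exact h5
  let S : Set (AddMonoid.End (Additive N)) := Set.range c
  let R := Subring.closure S
  letI iR : CommRing R := Subring.closureCommRingOfComm (by
    rintro _ ⟨g, rfl⟩ _ ⟨h, rfl⟩
    exact c_comm g h)
  let cR : G → R := fun g => ⟨c g, Subring.subset_closure ⟨g, rfl⟩⟩
  let a : Additive N := Additive.ofMul ⟨⁅x, y⁆, ha⟩
  let e : R → G := fun r => ((Additive.toMul (r.1 a) : N) : G)
  have e_add : ∀ r s : R, e (r + s) = e r * e s := fun r s => rfl
  have e_zero : e 0 = 1 := rfl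
  have e_neg : ∀ r : R, e (-r) = (e r)⁻¹ := fun r => rfl
  have e_one : e 1 = ⁅x, y⁆ := rfl
  have e_mul : ∀ (g : G) (r : R), g * e r * g⁻¹ = e (cR g * r) := fun g r => rfl
  have e_eq_one : ∀ r : R, e r = 1 → ∀ s : R, e (s * r) = 1 := by
    intro r hr s
    have h1 : r.1 a = 0 := by
      apply Additive.toMul.injective
      apply Subtype.ext
      exact hr
    have h2 : (s * r).1 a = s.1 (r.1 a) := rfl
    have h3 : (s * r).1 a = 0 := by rw [h2, h1, map_zero]
    show ((Additive.toMul ((s * r).1 a) : N) : G) = 1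
    rw [h3]; rfl
  let I : Ideal R :=
    { carrier := {r | e r = 1}
      add_mem' := by
        intro r s hr hs
        show e (r + s) = 1
        rw [e_add, hr, hs, one_mul]
      zero_mem' := e_zero
      smul_mem' := by
        intro s r hr
        exact e_eq_one r hr s }
  have hI : I ≠ ⊤ := by
    intro h
    have h1 : (1 : R) ∈ I := by rw [h]; exact Submodule.mem_top
    exact hxy h1
  obtain ⟨m, hm, hIm⟩ := Ideal.exists_le_maximal I hI
  let M : Subgroup G :=
    { carrier := {g | ∃ r ∈ m, g = e r}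
      one_mem' := ⟨0, m.zero_mem, rfl⟩
      mul_mem' := by
        rintro _ _ ⟨r, hr, rfl⟩ ⟨s, hs, rfl⟩
        exact ⟨r + s, m.add_mem hr hs, (e_add r s).symm⟩
      inv_mem' := by
        rintro _ ⟨r, hr, rfl⟩
        exact ⟨-r, m.neg_mem hr, (e_neg r).symm⟩ }
  have hM : M.Normal := ⟨by
    rintro _ ⟨r, hr, rfl⟩ g
    exact ⟨cR g * r, m.mul_mem_left _ hr, e_mul g r⟩⟩
  have heM : ∀ r : R, e r ∈ M ↔ r ∈ m := by
    intro r
    constructor
    · rintro ⟨s, hs, h⟩
      have h1 : e (r - s) = 1 := by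
        rw [sub_eq_add_neg, e_add, e_neg, h, mul_inv_cancel]
      have h2 : r - s ∈ m := hIm h1
      have := m.add_mem h2 hs
      simpa using this
    · intro h
      exact ⟨r, h, rfl⟩
  letI iK : Field (R ⧸ m) := Ideal.Quotient.field m
  let ψ : R ⧸ m → G ⧸ M := fun k => QuotientGroup.mk (e (Ideal.Quotient.mk_surjective k).choose)
  have hψ : ∀ r : R, ψ (Ideal.Quotient.mk m r) = QuotientGroup.mk (e r) := by
    intro r
    have h1 := (Ideal.Quotient.mk_surjective (Ideal.Quotient.mk m r)).choose_spec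
    set s := (Ideal.Quotient.mk_surjective (Ideal.Quotient.mk m r)).choose with hs
    show (QuotientGroup.mk (e s) : G ⧸ M) = QuotientGroup.mk (e r)
    rw [QuotientGroup.eq, ← e_neg, ← e_add, heM]
    rw [Ideal.Quotient.eq] at h1
    have := m.neg_mem h1
    have e3 : -(s - r) = -s + r := by ring
    rwa [e3] at this
  refine ⟨R ⧸ m, iK, G ⧸ M, inferInstance, QuotientGroup.mk' M, ψ,
    fun g => Ideal.Quotient.mk m (cR g), QuotientGroup.mk'_surjective M, ?_, ?_, ?_, ?_, ?_⟩
  · intro k l hkl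
    obtain ⟨r, rfl⟩ := Ideal.Quotient.mk_surjective k
    obtain ⟨s, rfl⟩ := Ideal.Quotient.mk_surjective l
    rw [hψ, hψ, QuotientGroup.eq, ← e_neg, ← e_add, heM] at hkl
    rw [Ideal.Quotient.eq]
    have := m.neg_mem hkl
    have e3 : -(-r + s) = r - s := by ring
    rwa [e3] at this
  · intro k l
    obtain ⟨r, rfl⟩ := Ideal.Quotient.mk_surjective k
    obtain ⟨s, rfl⟩ := Ideal.Quotient.mk_surjective l
    rw [← map_add, hψ, hψ, hψ, e_add]
    rfl
  · have : (1 : R ⧸ m) = Ideal.Quotient.mk m 1 := (map_one _).symm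
    rw [this, hψ, e_one]
    simp only [commutatorElement_def]
    rfl
  · intro g k
    obtain ⟨r, rfl⟩ := Ideal.Quotient.mk_surjective k
    rw [← map_mul, hψ, hψ, ← e_mul]
    rfl
  · rw [eq_top_iff]
    intro k _
    obtain ⟨r, rfl⟩ := Ideal.Quotient.mk_surjective k
    obtain ⟨r, hr⟩ := r
    refine Subring.closure_induction (p := fun r hr => Ideal.Quotient.mk m (⟨r, hr⟩ : R) ∈
      Subring.closure (Set.range fun g => Ideal.Quotient.mk m (cR g))) ?_ ?_ ?_ ?_ ?_ ?_ hr
    · rintro _ ⟨g, rfl⟩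
      exact Subring.subset_closure ⟨g, rfl⟩
    · have : (Ideal.Quotient.mk m (⟨0, zero_mem _⟩ : R)) = 0 := map_zero _
      rw [this]; exact zero_mem _
    · have : (Ideal.Quotient.mk m (⟨1, one_mem _⟩ : R)) = 1 := map_one _
      rw [this]; exact one_mem _
    · intro r s hr hs h1 h2
      have : (Ideal.Quotient.mk m (⟨r + s, add_mem hr hs⟩ : R)) =
        Ideal.Quotient.mk m (⟨r, hr⟩ : R) + Ideal.Quotient.mk m (⟨s, hs⟩ : R) := by
        rw [← map_add]; rfl
      rw [this]; exact add_mem h1 h2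
    · intro r hr h1
      have : (Ideal.Quotient.mk m (⟨-r, neg_mem hr⟩ : R)) =
        -Ideal.Quotient.mk m (⟨r, hr⟩ : R) := by
        rw [← map_neg]; rfl
      rw [this]; exact neg_mem h1
    · intro r s hr hs h1 h2
      have : (Ideal.Quotient.mk m (⟨r * s, mul_mem hr hs⟩ : R)) =
        Ideal.Quotient.mk m (⟨r, hr⟩ : R) * Ideal.Quotient.mk m (⟨s, hs⟩ : R) := by
        rw [← map_mul]; rfl
      rw [this]; exact mul_mem h1 h2

theorem map_lift_eq' {G H : Type} [Group G] [Group H] (φ : G →* H) (f : ℕ → G) (x : FreeGroup ℕ) :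
    φ (FreeGroup.lift f x) = FreeGroup.lift (fun i => φ (f i)) x := by
  have h : (φ.comp (FreeGroup.lift f)) = FreeGroup.lift (fun i => φ (f i)) := by
    ext i; simp
  exact DFunLike.congr_fun h x

theorem law_surj {G H : Type} [Group G] [Group H] (φ : G →* H) (hφ : Function.Surjective φ)
    (x : FreeGroup ℕ) (h : ∀ f : ℕ → G, FreeGroup.lift f x = 1) (f : ℕ → H) :
    FreeGroup.lift f x = 1 := by
  choose g hg using fun i => hφ (f i)
  have h2 := congrArg φ (h g)
  rw [map_lift_eq', map_one] at h2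
  rw [← h2]
  have e : f = fun i => φ (g i) := by
    funext i
    exact (hg i).symm
  rw [← e]

section
variable {K : Type} [Field K] {G₁ : Type} [Group G₁] (ψ : K → G₁)
  (hinj : Function.Injective ψ) (hadd : ∀ k l, ψ (k + l) = ψ k * ψ l)
include hinj hadd

omit hinj in
theorem psi_zero : ψ 0 = 1 := by
  have := hadd 0 0
  rw [add_zero] at this
  exact (mul_eq_left.1 this.symm)

omit hinj in
theorem psi_neg (k : K) : ψ (-k) = (ψ k)⁻¹ := by
  rw [eq_inv_iff_mul_eq_one, ← hadd, neg_add_cancel, psi_zero ψ hadd]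

theorem meta_case1 (g : G₁) (α : Kˣ) (hα : α ≠ 1)
    (hg : ∀ k, g * ψ k * g⁻¹ = ψ (α * k)) (x : FreeGroup ℕ)
    (h : ∀ f : ℕ → G₁, FreeGroup.lift f x = 1) (b : ℕ → K) (n : ℕ → ℤ) :
    FreeGroup.lift (fun v => (⟨b v, α ^ (n v)⟩ : Aff K)) x = 1 := by
  have hgi : ∀ k, g⁻¹ * ψ k * g = ψ ((α⁻¹ : Kˣ) * k) := by
    intro k
    have := hg ((α⁻¹ : Kˣ) * k)
    rw [← mul_assoc, ← Units.val_mul, mul_inv_cancel, Units.val_one, one_mul] at this
    rw [← this]; group
  have hgz : ∀ (j : ℤ) (k : K), g ^ j * ψ k * (g ^ j)⁻¹ = ψ ((α ^ j : Kˣ) * k) := by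
    intro j
    induction j using Int.induction_on with
    | zero => intro k; simp
    | succ n ih =>
      intro k
      have e : ((α ^ ((n : ℤ) + 1) : Kˣ) : K) * k = (α ^ (n : ℤ) : Kˣ) * ((α : K) * k) := by
        rw [zpow_add_one, Units.val_mul, mul_assoc]
      rw [e, ← ih, ← hg, zpow_add_one]
      group
    | pred n ih =>
      intro k
      have e : ((α ^ (-(n : ℤ) - 1) : Kˣ) : K) * k = (α ^ (-(n : ℤ)) : Kˣ) * ((α⁻¹ : Kˣ) * k) := by
        rw [zpow_sub_one, Units.val_mul, mul_assoc]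
      rw [e, ← ih, ← hgi, zpow_sub_one]
      group
  let S : Subgroup (Aff K × G₁) :=
    { carrier := {p | ∃ (k : K) (j : ℤ), p = (⟨k, α ^ j⟩, ψ k * g ^ j)}
      one_mem' := ⟨0, 0, by simp [psi_zero ψ hadd]; rfl⟩
      mul_mem' := by
        rintro _ _ ⟨k, j, rfl⟩ ⟨k', j', rfl⟩
        refine ⟨k + (α ^ j : Kˣ) * k', j + j', ?_⟩
        rw [hadd, ← hgz, zpow_add, zpow_add]
        ext
        · rfl
        · rfl
        · show ψ k * g ^ j * (ψ k' * g ^ j') = _
          group
      inv_mem' := by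
        rintro _ ⟨k, j, rfl⟩
        refine ⟨-(((α ^ j)⁻¹ : Kˣ) * k), -j, ?_⟩
        rw [psi_neg ψ hadd]
        have h1 : ψ ((((α ^ j)⁻¹ : Kˣ) : K) * k) = (g ^ j)⁻¹ * ψ k * (g ^ j) := by
          have := hgz (-j) k
          rw [zpow_neg, zpow_neg, inv_inv] at this
          exact this.symm
        rw [h1]
        ext
        · rfl
        · show ((α ^ j)⁻¹ : Kˣ).1 = (α ^ (-j) : Kˣ).1
          rw [zpow_neg]
        · show (ψ k * g ^ j)⁻¹ = _
          rw [zpow_neg]; group }
  let F : ℕ → Aff K × G₁ := fun v => (⟨b v, α ^ (n v)⟩, ψ (b v) * g ^ (n v))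
  have hF : FreeGroup.lift F x ∈ S := by
    have : (FreeGroup.lift F).range ≤ S := by
      apply FreeGroup.range_lift_le
      rintro _ ⟨v, rfl⟩
      exact ⟨b v, n v, rfl⟩
    exact this ⟨x, rfl⟩
  obtain ⟨k, j, hkj⟩ := hF
  have h1 := map_lift_eq' (MonoidHom.fst (Aff K) G₁) F x
  have h2 := map_lift_eq' (MonoidHom.snd (Aff K) G₁) F x
  rw [hkj] at h1 h2
  have h3 : ψ k * g ^ j = 1 := by
    have h4 := h (fun i => (MonoidHom.snd (Aff K) G₁) (F i))
    rw [← h2] at h4
    exact h4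
  have h4 : ψ k = (g ^ j)⁻¹ := eq_inv_of_mul_eq_one_left h3
  have h5 : g * ψ k * g⁻¹ = ψ k := by rw [h4]; group
  rw [hg] at h5
  have h6 := hinj h5
  have hk : k = 0 := by
    by_contra hk
    have h7 : (α : K) = 1 := by
      have := mul_right_cancel₀ hk (h6.trans (one_mul k).symm)
      exact this
    exact hα (Units.ext h7)
  have hgj : g ^ j = 1 := by
    rw [hk, psi_zero ψ hadd, one_mul] at h3
    exact h3
  have hαj : α ^ j = 1 := by
    have := hgz j 1
    rw [hgj] at this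
    simp only [one_mul, inv_one, mul_one] at this
    exact Units.ext (hinj this).symm
  have h8 : FreeGroup.lift (fun v => (⟨b v, α ^ (n v)⟩ : Aff K)) x = ⟨k, α ^ j⟩ := h1.symm
  rw [h8, hk, hαj]
  rfl

omit hinj in
theorem psi_nat (m : ℕ) : ψ (m : K) = ψ 1 ^ m := by
  induction m with
  | zero => simp [psi_zero ψ hadd]
  | succ m ih => rw [Nat.cast_succ, hadd, ih, pow_succ]

end

/-- PROOF.  Let `N` be abelian normal with `G ⧸ N` commutative and `⁅x, y⁆ ≠ 1`; `a := ⁅x, y⁆ ∈ N`.
`G` acts on `Additive N` by conjugation, the operators `c g` commute (`N` acts trivially); let `R` be the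
commutative subring of `AddMonoid.End (Additive N)` generated by them, `𝔪` a maximal ideal containing
the annihilator of `a`, `K = R ⧸ 𝔪`, `M = {r a | r ∈ 𝔪}` (normal in `G`), `G₁ = G ⧸ M`.  The map
`ψ : K → G₁`, `r mod 𝔪 ↦ class of r a` is well defined, injective, turns sums into products and
`g ψ(k) g⁻¹ = ψ (χ g k)`, `χ g = c g mod 𝔪`.
If `χ g ≠ 1` for some `g`: `α = χ g`.  The set of all `(⟨k, α ^ j⟩, ψ k * ḡ ^ j)` is a subgroup of
`Aff K × G₁` which contains all `(⟨b v, α ^ n v⟩, ψ (b v) * ḡ ^ n v)`; the value of `w` is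
`(⟨k, α ^ j⟩, ψ k * ḡ ^ j)` with second component `1`; then `ψ k` commutes with `ḡ`, so `α k = k`, `k = 0`,
`ḡ ^ j = 1`, `α ^ j = 1`.
If `χ g = 1` for all `g`: every element of `R` is an integer modulo `𝔪`, so `K` is the prime field with
`p` elements; take `H = G₁` and the images of `x`, `y`. -/
theorem metab_dichotomy (G : Type) [Group G] (hm : Metab G) (hc : ¬ Comm G) :
    (∃ (K : Type) (_ : Field K) (α : Kˣ), α ≠ 1 ∧ ∀ w : List (ℕ × Bool),
      (∀ f : ℕ → G, FreeGroup.lift f (FreeGroup.mk w) = 1) →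
      ∀ (b : ℕ → K) (n : ℕ → ℤ),
        FreeGroup.lift (fun v => (⟨b v, α ^ (n v)⟩ : Aff K)) (FreeGroup.mk w) = 1) ∨
    (∃ (H : Type) (_ : Group H) (x y : H) (p : ℕ), p.Prime ∧ ⁅x, y⁆ ∈ Subgroup.center H ∧
      orderOf ⁅x, y⁆ = p ∧ ∀ w : List (ℕ × Bool),
      (∀ f : ℕ → G, FreeGroup.lift f (FreeGroup.mk w) = 1) →
      ∀ f : ℕ → H, FreeGroup.lift f (FreeGroup.mk w) = 1) := by
  obtain ⟨N, hN, hNc, hQ⟩ := hm
  have hxy : ∃ x y : G, ⁅x, y⁆ ≠ 1 := by
    by_contra hcon
    apply hc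
    intro a b
    by_contra hab
    apply hcon
    refine ⟨a, b, ?_⟩
    intro h
    rw [commutatorElement_eq_one_iff_mul_comm] at h
    exact hab h
  obtain ⟨x, y, hxy⟩ := hxy
  obtain ⟨K, iK, G₁, iG, φ, ψ, χ, hφ, hinj, hadd, hone, hconj, hgen⟩ := metaB G N hNc hQ x y hxy
  by_cases h1 : ∃ g, χ g ≠ 1
  · left
    obtain ⟨g, hg⟩ := h1
    have hg0 : χ g ≠ 0 := by
      intro h0
      have h2 := hconj g 1
      rw [h0, zero_mul, psi_zero ψ hadd] at h2
      have h3 : ψ 1 = 1 := by
        have := congrArg (fun t => (φ g)⁻¹ * t * φ g) h2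
        simpa [mul_assoc] using this
      have h4 := hinj (h3.trans (psi_zero ψ hadd).symm)
      exact one_ne_zero h4
    refine ⟨K, iK, Units.mk0 (χ g) hg0, ?_, ?_⟩
    · intro h
      apply hg
      have := congrArg Units.val h
      simpa using this
    · intro w hw b n
      apply meta_case1 ψ hinj hadd (φ g) (Units.mk0 (χ g) hg0)
      · intro h
        apply hg
        have := congrArg Units.val h
        simpa using this
      · intro k
        exact hconj g k
      · intro f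
        exact law_surj φ hφ _ hw f
  · right
    have h1' : ∀ g, χ g = 1 := by
      intro g
      by_contra h
      exact h1 ⟨g, h⟩
    -- every element of K is an integer
    have hint : ∀ k : K, ∃ n : ℤ, k = n := by
      intro k
      have hk : k ∈ Subring.closure (Set.range χ) := by rw [hgen]; exact Subring.mem_top k
      refine Subring.closure_induction (p := fun (k : K) _ => ∃ n : ℤ, k = n) ?_ ?_ ?_ ?_ ?_ ?_ hk
      · rintro _ ⟨g, rfl⟩
        exact ⟨1, by rw [h1' g]; simp⟩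
      · exact ⟨0, by simp⟩
      · exact ⟨1, by simp⟩
      · rintro _ _ _ _ ⟨m, rfl⟩ ⟨n, rfl⟩
        exact ⟨m + n, by push_cast; rfl⟩
      · rintro _ _ ⟨m, rfl⟩
        exact ⟨-m, by push_cast; rfl⟩
      · rintro _ _ _ _ ⟨m, rfl⟩ ⟨n, rfl⟩
        exact ⟨m * n, by push_cast; rfl⟩
    obtain ⟨p, hp⟩ := CharP.exists K
    have hp0 : p ≠ 0 := by
      rintro rfl
      have hch : CharZero K := CharP.charP_to_charZero K
      obtain ⟨n, hn⟩ := hint (2 : K)⁻¹
      have h2 : (2 : K) ≠ 0 := two_ne_zero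
      have h3 : ((2 * n : ℤ) : K) = ((1 : ℤ) : K) := by
        push_cast
        rw [← hn, mul_inv_cancel₀ h2]
      have h4 : (2 * n : ℤ) = 1 := Int.cast_injective h3
      omega
    have hpp : p.Prime := (CharP.char_is_prime_or_zero K p).resolve_right hp0
    refine ⟨G₁, iG, φ x, φ y, p, hpp, ?_, ?_, ?_⟩
    · rw [← hone, Subgroup.mem_center_iff]
      intro h
      obtain ⟨g, rfl⟩ := hφ h
      have := hconj g 1
      rw [h1' g, one_mul] at this
      have h2 := congrArg (fun t => t * φ g) this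
      simpa [mul_assoc] using h2
    · rw [← hone]
      haveI : Fact p.Prime := ⟨hpp⟩
      apply orderOf_eq_prime
      · rw [← psi_nat ψ hadd, CharP.cast_eq_zero, psi_zero ψ hadd]
      · intro h
        exact one_ne_zero (hinj (h.trans (psi_zero ψ hadd).symm))
    · intro w hw f
      exact law_surj φ hφ _ hw f

end Pool.Agent.PAB
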