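import Pool.Agent.PAB.Defs

set_option autoImplicit false

namespace Pool.Agent.PAB

/-- value of a list of letters under `v ↦ u v` -/
def uval {M : Type} [CommGroup M] (u : ℕ → M) (l : List (ℕ × Bool)) : M :=
  (l.map (fun x => cond x.2 (u x.1) (u x.1)⁻¹)).prod

theorem esum_cons (x : ℕ × Bool) (l : List (ℕ × Bool)) (j : ℕ) :
    esum (x :: l) j = (if x.1 = j then (cond x.2 1 (-1) : ℤ) else 0) + esum l j := by
  obtain ⟨v, e⟩ := x
  unfold esum
  cases e <;> by_cases h : v = j
  · subst h
    simp
    ring
  · simp [h]
  · subst h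
    simp
    ring
  · simp [h]

theorem uval_eq {M : Type} [CommGroup M] (u : ℕ → M) (J : Finset ℕ) (l : List (ℕ × Bool))
    (hl : ∀ x ∈ l, x.1 ∈ J) : uval u l = ∏ j ∈ J, u j ^ (esum l j) := by
  induction l with
  | nil => simp [uval, esum]
  | cons x l ih =>
    have h1 : uval u (x :: l) = cond x.2 (u x.1) (u x.1)⁻¹ * uval u l := by
      simp [uval]
    rw [h1, ih (fun y hy => hl y (List.mem_cons_of_mem _ hy))]
    have h2 : cond x.2 (u x.1) (u x.1)⁻¹
        = ∏ j ∈ J, u j ^ (if x.1 = j then (cond x.2 1 (-1) : ℤ) else 0) := by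
      rw [Finset.prod_eq_single x.1]
      · cases x.2 <;> simp
      · intro b _ hb
        simp [Ne.symm hb]
      · intro hx
        exact absurd (hl x (List.mem_cons_self)) hx
    rw [h2, ← Finset.prod_mul_distrib]
    apply Finset.prod_congr rfl
    intro j _
    rw [esum_cons, zpow_add]

theorem zpow_congr_of_dvd {M : Type} [CommGroup M] (u : M) (r : ℕ) (hu : u ^ r = 1) (a b : ℤ)
    (h : (r : ℤ) ∣ a - b) : u ^ a = u ^ b := by
  obtain ⟨k, hk⟩ := h
  have : a = b + r * k := by linarith
  rw [this, zpow_add, zpow_mul, zpow_natCast, hu, one_zpow, mul_one]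

theorem uval_congr {M : Type} [CommGroup M] (u : ℕ → M) (r : ℕ) (hu : ∀ v, u v ^ r = 1)
    (l l' : List (ℕ × Bool)) (h : ∀ j : ℕ, (r : ℤ) ∣ esum l j - esum l' j) :
    uval u l = uval u l' := by
  classical
  let J : Finset ℕ := ((l ++ l').map Prod.fst).toFinset
  have hl : ∀ x ∈ l, x.1 ∈ J := by
    intro x hx
    simp only [J, List.mem_toFinset, List.mem_map]
    exact ⟨x, List.mem_append_left _ hx, rfl⟩
  have hl' : ∀ x ∈ l', x.1 ∈ J := by
    intro x hx
    simp only [J, List.mem_toFinset, List.mem_map]
    exact ⟨x, List.mem_append_right _ hx, rfl⟩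
  rw [uval_eq u J l hl, uval_eq u J l' hl']
  exact Finset.prod_congr rfl (fun j _ => zpow_congr_of_dvd _ r (hu j) _ _ (h j))

theorem sgn_succ (x : ℕ × Bool) (w : List (ℕ × Bool)) (s : ℕ) :
    sgn (x :: w) (s + 1) = sgn w s := by
  simp [sgn]

theorem vr_succ (x : ℕ × Bool) (w : List (ℕ × Bool)) (s : ℕ) :
    vr (x :: w) (s + 1) = vr w s := by
  simp [vr]

theorem pre_succ (x : ℕ × Bool) (w : List (ℕ × Bool)) (s : ℕ) :
    pre (x :: w) (s + 1) = x :: pre w s := by
  unfold pre
  simp only [List.getD_cons_succ]
  split_ifs <;> simp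

theorem lift_aff {R : Type} [CommRing R] (w : List (ℕ × Bool)) (f : ℕ → Aff R) :
    FreeGroup.lift f (FreeGroup.mk w) =
      ⟨∑ s ∈ Finset.range w.length, (sgn w s : R) *
        ((uval (fun v => (f v).u) (pre w s) : Rˣ) : R) * (f (vr w s)).b,
        uval (fun v => (f v).u) w⟩ := by
  rw [FreeGroup.lift_mk]
  induction w with
  | nil =>
    ext <;> simp [uval]
  | cons x w ih =>
    rw [List.map_cons, List.prod_cons, ih]
    obtain ⟨v, e⟩ := x
    ext
    · rw [Aff.mul_b]
      rw [List.length_cons, Finset.sum_range_succ']
      rw [add_comm]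
      congr 1
      · rw [Finset.mul_sum]
        apply Finset.sum_congr rfl
        intro s _
        rw [sgn_succ, vr_succ, pre_succ]
        have h1 : uval (fun v => (f v).u) ((v, e) :: pre w s)
            = cond e (f v).u (f v).u⁻¹ * uval (fun v => (f v).u) (pre w s) := by
          simp [uval]
        rw [h1]
        cases e <;> simp <;> ring
      · cases e <;> simp [sgn, vr, pre, uval]
    · cases e <;> simp [uval]

/-- If `Cond p r w` then `w` holds under all assignments of elements of the affine group of a ring of
characteristic dividing `p` with unit parts of order dividing `r`.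

PROOF.  Induction on `w` gives `(lift f (mk w)).b = ∑ s < |w|, sgn w s * uval (pre w s) * (f (vr w s)).b`
and `.u = uval w` where `uval l = ∏ (v, ε) ∈ l, (f v).u ^ ε`; `uval l` depends only on the exponent
sums of `l` modulo `r` (as all `(f v).u ^ r = 1`).  Group the positions into the classes of `same r w`
(the class of `s` is determined by `vr w s` and the function `j ↦ (esum (pre w s) j : ZMod r)`): in a
class the factors `uval` and `b` are constant and the sum of the signs is divisible by `p`. -/
theorem lift_aff_eq_one {R : Type} [CommRing R] (p r : ℕ) (hp : (p : R) = 0)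
    (w : List (ℕ × Bool)) (h : Cond p r w) (f : ℕ → Aff R) (hf : ∀ v, (f v).u ^ r = 1) :
    FreeGroup.lift f (FreeGroup.mk w) = 1 := by
  classical
  rw [lift_aff]
  ext1
  · show ∑ s ∈ Finset.range w.length, (sgn w s : R) *
      ((uval (fun v => (f v).u) (pre w s) : Rˣ) : R) * (f (vr w s)).b = 0
    let S : Setoid ℕ := ⟨same r w, by
      refine ⟨fun s => ⟨rfl, fun j => by simp⟩, ?_, ?_⟩
      · intro s t hst
        refine ⟨hst.1.symm, fun j => ?_⟩
        have h3 := hst.2 j
        rw [← dvd_neg, neg_sub] at h3
        exact h3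
      · intro s t q h1 h2
        refine ⟨h1.1.trans h2.1, fun j => ?_⟩
        have h3 := dvd_add (h1.2 j) (h2.2 j)
        rw [sub_add_sub_cancel] at h3
        exact h3⟩
    apply Finset.sum_cancels_of_partition_cancels S
    intro t ht
    have h1 : ∀ s ∈ (Finset.range w.length).filter (fun s => same r w s t),
        (sgn w s : R) * ((uval (fun v => (f v).u) (pre w s) : Rˣ) : R) * (f (vr w s)).b
        = (sgn w s : R) * (((uval (fun v => (f v).u) (pre w t) : Rˣ) : R) * (f (vr w t)).b) := by
      intro s hs
      have hst := (Finset.mem_filter.1 hs).2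
      rw [uval_congr (fun v => (f v).u) r hf _ _ hst.2, hst.1]
      ring
    have h2 : (Finset.range w.length).filter (fun s => S s t)
        = (Finset.range w.length).filter (fun s => same r w s t) := by
      apply Finset.filter_congr
      intro s _
      exact Iff.rfl
    have h3 := h.2 t (Finset.mem_range.1 ht)
    obtain ⟨k, hk⟩ := h3
    have h4 : ∑ s ∈ (Finset.range w.length).filter (fun s => same r w s t), (sgn w s : R) = 0 := by
      have : ∑ s ∈ (Finset.range w.length).filter (fun s => same r w s t), (sgn w s : R)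
          = ((∑ s ∈ (Finset.range w.length).filter (fun s => same r w s t), sgn w s : ℤ) : R) := by
        push_cast
        rfl
      rw [this]
      have hk' : (∑ s ∈ (Finset.range w.length).filter (fun s => same r w s t), sgn w s : ℤ)
          = (p : ℤ) * k := by
        convert hk
      rw [hk']
      push_cast
      rw [hp, zero_mul]
    calc _ = ∑ s ∈ (Finset.range w.length).filter (fun s => same r w s t),
          (sgn w s : R) * ((uval (fun v => (f v).u) (pre w s) : Rˣ) : R) * (f (vr w s)).b := by
            apply Finset.sum_congr _ (fun _ _ => rfl)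
            convert h2
      _ = ∑ s ∈ (Finset.range w.length).filter (fun s => same r w s t),
          (sgn w s : R) * (((uval (fun v => (f v).u) (pre w t) : Rˣ) : R) * (f (vr w t)).b) :=
            Finset.sum_congr rfl h1
      _ = 0 := by rw [← Finset.sum_mul, h4, zero_mul]
  · show uval (fun v => (f v).u) w = (1 : Rˣ)
    have := uval_congr (fun v => (f v).u) r hf w [] (fun j => by
      have := h.1 j
      simpa [esum] using this)
    rw [this]
    simp [uval]

/-- Converse over a field.

PROOF.  Let `p` be the characteristic and `r` the order of `α` (`0` if infinite).  For each variable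
`i` take `b v = 1` if `v = i` and `0` otherwise.  With the formula of `lift_aff_eq_one`,
`∑ s (vr w s = i), sgn w s * χ_s (n) = 0` for all `n : ℕ → ℤ` where `χ_s n = uval (pre w s)` with
`u_v = α ^ (n v)` is a homomorphism `Multiplicative (ℕ → ℤ) →* K`.  Distinct homomorphisms are
linearly independent (`linearIndependent_monoidHom`) and `χ_s = χ_t` iff the exponent sums of
`pre w s` and `pre w t` agree modulo `r` (evaluate at the unit vectors).  So for each `t` the sum of the
signs over the class of `t` vanishes in `K`, i.e. is divisible by `p`.  The `u` part gives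
`α ^ (esum w i) = 1` so `r ∣ esum w i`. -/
theorem cond_of_field {K : Type} [Field K] (α : Kˣ) (p : ℕ) [CharP K p] (w : List (ℕ × Bool))
    (h : ∀ (b : ℕ → K) (n : ℕ → ℤ),
      FreeGroup.lift (fun v => (⟨b v, α ^ (n v)⟩ : Aff K)) (FreeGroup.mk w) = 1) :
    Cond p (orderOf α) w := by
  classical
  -- the characters
  let χ : List (ℕ × Bool) → (Multiplicative (ℕ → ℤ) →* K) := fun l =>
    { toFun := fun n => ((uval (fun v => α ^ (Multiplicative.toAdd n v)) l : Kˣ) : K)
      map_one' := by
        simp [uval]
      map_mul' := by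
        intro n m
        rw [← Units.val_mul]
        congr 1
        unfold uval
        rw [← List.prod_map_mul]
        congr 1
        apply List.map_congr_left
        intro x _
        have e : (Multiplicative.toAdd (n * m)) x.1 = Multiplicative.toAdd n x.1
            + Multiplicative.toAdd m x.1 := rfl
        cases x.2 <;> simp only [cond_true, cond_false, e, zpow_add, mul_inv] }
  have hχ : ∀ l (n : ℕ → ℤ), χ l (Multiplicative.ofAdd n) =
      ((uval (fun v => α ^ (n v)) l : Kˣ) : K) := fun l n => rfl
  -- evaluation at the unit vectors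
  have hunit : ∀ (l : List (ℕ × Bool)) (j : ℕ),
      uval (fun v => α ^ ((Pi.single j 1 : ℕ → ℤ) v)) l = α ^ (esum l j) := by
    intro l j
    rw [uval_eq _ (insert j (l.map Prod.fst).toFinset) l (by
      intro x hx
      apply Finset.mem_insert_of_mem
      simp only [List.mem_toFinset, List.mem_map]
      exact ⟨x, hx, rfl⟩)]
    rw [Finset.prod_eq_single j]
    · simp
    · intro b _ hb
      simp [hb]
    · intro hj
      exact absurd (Finset.mem_insert_self _ _) hj
  have hχeq : ∀ l l', χ l = χ l' ↔ ∀ j : ℕ, ((orderOf α : ℕ) : ℤ) ∣ esum l j - esum l' j := by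
    intro l l'
    constructor
    · intro e j
      have h1 := DFunLike.congr_fun e (Multiplicative.ofAdd (Pi.single j 1 : ℕ → ℤ))
      rw [hχ, hχ, hunit, hunit] at h1
      have h2 : α ^ (esum l j) = α ^ (esum l' j) := Units.ext h1
      rw [orderOf_dvd_iff_zpow_eq_one, zpow_sub, h2, mul_inv_cancel]
    · intro e
      ext n
      show ((uval (fun v => α ^ (Multiplicative.toAdd n v)) l : Kˣ) : K) =
        ((uval (fun v => α ^ (Multiplicative.toAdd n v)) l' : Kˣ) : K)
      rw [uval_congr _ (orderOf α) _ l l' e]
      intro v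
      rw [← zpow_natCast, ← zpow_mul, mul_comm, zpow_mul, zpow_natCast, pow_orderOf_eq_one,
        one_zpow]
  refine ⟨?_, ?_⟩
  · intro i
    have h1 := h 0 (Pi.single i 1)
    rw [lift_aff] at h1
    have h2 := congrArg Aff.u h1
    simp only [Aff.one_u] at h2
    rw [hunit] at h2
    exact orderOf_dvd_iff_zpow_eq_one.2 h2
  · intro t ht
    let c : ℕ → K := fun s => (sgn w s : K) * (if vr w s = vr w t then 1 else 0)
    have hzero : ∀ n : Multiplicative (ℕ → ℤ),
        ∑ s ∈ Finset.range w.length, c s * χ (pre w s) n = 0 := by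
      intro n
      have h1 := h (fun v => if v = vr w t then 1 else 0) (Multiplicative.toAdd n)
      rw [lift_aff] at h1
      have h2 := congrArg Aff.b h1
      simp only [Aff.one_b] at h2
      rw [← h2]
      apply Finset.sum_congr rfl
      intro s _
      show (sgn w s : K) * (if vr w s = vr w t then 1 else 0) *
        ((uval (fun v => α ^ (Multiplicative.toAdd n v)) (pre w s) : Kˣ) : K) = _
      ring
    let S : Finset (Multiplicative (ℕ → ℤ) →* K) :=
      (Finset.range w.length).image (fun s => χ (pre w s))
    let g : (Multiplicative (ℕ → ℤ) →* K) → K := fun φ =>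
      ∑ s ∈ (Finset.range w.length).filter (fun s => χ (pre w s) = φ), c s
    have hg : ∑ φ ∈ S, g φ • (φ : Multiplicative (ℕ → ℤ) → K) = 0 := by
      funext n
      rw [Finset.sum_apply, Pi.zero_apply, ← hzero n]
      rw [← Finset.sum_fiberwise_of_maps_to (t := S) (g := fun s => χ (pre w s))
        (fun s hs => Finset.mem_image_of_mem _ hs)]
      apply Finset.sum_congr rfl
      intro φ _
      rw [Pi.smul_apply, smul_eq_mul, Finset.sum_mul]
      apply Finset.sum_congr rfl
      intro s hs
      rw [(Finset.mem_filter.1 hs).2]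
    have hlin := linearIndependent_iff'.1
      (linearIndependent_monoidHom (Multiplicative (ℕ → ℤ)) K) S g hg (χ (pre w t))
      (Finset.mem_image_of_mem _ (Finset.mem_range.2 ht))
    rw [← CharP.intCast_eq_zero_iff K p]
    rw [← hlin]
    push_cast
    show _ = ∑ s ∈ (Finset.range w.length).filter (fun s => χ (pre w s) = χ (pre w t)),
      (sgn w s : K) * (if vr w s = vr w t then 1 else 0)
    rw [Finset.sum_filter, Finset.sum_filter]
    apply Finset.sum_congr rfl
    intro s _
    by_cases h1 : vr w s = vr w t
    · by_cases h2 : χ (pre w s) = χ (pre w t)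
      · rw [if_pos h2, if_pos h1, mul_one, if_pos]
        exact ⟨h1, (hχeq _ _).1 h2⟩
      · rw [if_neg h2, if_neg]
        intro h3
        exact h2 ((hχeq _ _).2 h3.2)
    · rw [if_neg h1, mul_zero, ite_self, if_neg]
      intro h3
      exact h1 h3.1

end Pool.Agent.PAB
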