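import Pool.Agent.PAB.Defs

set_option autoImplicit false

namespace Pool.Agent.PAB

theorem same_refl' (r : ℕ) (w : List (ℕ × Bool)) (s : ℕ) : same r w s s :=
  ⟨rfl, fun j => by simp⟩

theorem same_symm' {r : ℕ} {w : List (ℕ × Bool)} {s t : ℕ} (h : same r w s t) : same r w t s :=
  ⟨h.1.symm, fun j => by
    have := (dvd_neg (α := ℤ)).2 (h.2 j)
    simpa using this⟩

theorem same_trans' {r : ℕ} {w : List (ℕ × Bool)} {s t u : ℕ} (h : same r w s t)
    (h' : same r w t u) : same r w s u :=
  ⟨h.1.trans h'.1, fun j => by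
    have := dvd_add (h.2 j) (h'.2 j)
    simpa using this⟩

theorem same_of_zero {r : ℕ} {w : List (ℕ × Bool)} {s t : ℕ} (h : same 0 w s t) :
    same r w s t :=
  ⟨h.1, fun j => by
    have := h.2 j
    simp only [Nat.cast_zero, zero_dvd_iff] at this
    rw [this]; exact dvd_zero _⟩

theorem abs_esum_le (l : List (ℕ × Bool)) (j : ℕ) : |esum l j| ≤ l.length := by
  have h1 : l.count (j, true) ≤ l.length := List.count_le_length
  have h2 : l.count (j, false) ≤ l.length := List.count_le_length
  unfold esum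
  rw [abs_le]
  constructor <;> omega

theorem pre_length (w : List (ℕ × Bool)) (s : ℕ) : (pre w s).length ≤ w.length := by
  unfold pre
  split <;> simp

theorem eq_zero_of_dvd_of_lt {r : ℕ} {x : ℤ} {m : ℕ} (h : (r : ℤ) ∣ x) (hx : |x| ≤ m)
    (hr : r = 0 ∨ m < r) : x = 0 := by
  rcases hr with rfl | hr
  · simpa using h
  · apply Int.eq_zero_of_abs_lt_dvd h
    omega

theorem abs_sum_sgn (w : List (ℕ × Bool)) (F : Finset ℕ) : |∑ s ∈ F, sgn w s| ≤ F.card := by
  calc |∑ s ∈ F, sgn w s| ≤ ∑ s ∈ F, |sgn w s| := Finset.abs_sum_le_sum_abs _ _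
    _ ≤ ∑ s ∈ F, (1 : ℤ) := by
        apply Finset.sum_le_sum
        intro s _
        unfold sgn
        split <;> simp
    _ = F.card := by simp

open Classical in
theorem cond_closed {p : ℕ} {w : List (ℕ × Bool)} (h : Cond p 0 w) :
    ∀ (n : ℕ) (F : Finset ℕ), F.card = n → F ⊆ Finset.range w.length →
      (∀ s ∈ F, ∀ t ∈ Finset.range w.length, same 0 w t s → t ∈ F) →
      (p : ℤ) ∣ ∑ s ∈ F, sgn w s := by
  intro n
  induction n using Nat.strong_induction_on with
  | _ n ih =>
    intro F hn hF hc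
    by_cases hne : F = ∅
    · rw [hne]; simp
    · obtain ⟨t, ht⟩ := Finset.nonempty_iff_ne_empty.2 hne
      set C := (Finset.range w.length).filter (fun s => same 0 w s t) with hC
      have hCF : C ⊆ F := by
        intro s hs
        rw [hC, Finset.mem_filter] at hs
        exact hc t ht s hs.1 hs.2
      have htC : t ∈ C := by
        rw [hC, Finset.mem_filter]
        exact ⟨hF ht, same_refl' 0 w t⟩
      have h1 : (p : ℤ) ∣ ∑ s ∈ C, sgn w s := h.2 t (Finset.mem_range.1 (hF ht))
      have h2 : (p : ℤ) ∣ ∑ s ∈ F \ C, sgn w s := by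
        apply ih (F \ C).card _ _ rfl
        · exact (Finset.sdiff_subset).trans hF
        · intro s hs u hu hus
          rw [Finset.mem_sdiff] at hs ⊢
          refine ⟨hc s hs.1 u hu hus, ?_⟩
          intro huC
          apply hs.2
          rw [hC, Finset.mem_filter] at huC ⊢
          exact ⟨hF hs.1, same_trans' (same_symm' hus) huC.2⟩
        · rw [← hn]
          apply Finset.card_lt_card
          exact Finset.sdiff_ssubset hCF ⟨t, htC⟩
      rw [← Finset.sum_sdiff hCF]
      exact dvd_add h2 h1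

theorem cond_coarse {p : ℕ} (r : ℕ) {w : List (ℕ × Bool)} (h : Cond p 0 w) : Cond p r w := by
  classical
  constructor
  · intro i
    have := h.1 i
    simp only [Nat.cast_zero, zero_dvd_iff] at this
    rw [this]; exact dvd_zero _
  · intro t ht
    apply cond_closed h _ _ rfl
    · exact Finset.filter_subset _ _
    · intro s hs u hu hus
      rw [Finset.mem_filter] at hs ⊢
      exact ⟨hu, same_trans' (same_of_zero hus) hs.2⟩

theorem cond_r_zero {p r ℓ : ℕ} {w : List (ℕ × Bool)} (hw : w.length ≤ ℓ)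
    (hr : r = 0 ∨ 2 * ℓ < r) (h : Cond p r w) : Cond p 0 w := by
  classical
  constructor
  · intro i
    have := eq_zero_of_dvd_of_lt (h.1 i) (abs_esum_le w i) (by omega)
    rw [this]; simp
  · intro t ht
    have e : (Finset.range w.length).filter (fun s => same 0 w s t) =
        (Finset.range w.length).filter (fun s => same r w s t) := by
      apply Finset.filter_congr
      intro s _
      constructor
      · exact same_of_zero
      · intro hs
        refine ⟨hs.1, fun j => ?_⟩
        have h1 := abs_esum_le (pre w s) j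
        have h2 := abs_esum_le (pre w t) j
        have h3 := pre_length w s
        have h4 := pre_length w t
        have h5 : |esum (pre w s) j - esum (pre w t) j| ≤ (2 * ℓ : ℕ) := by
          rw [abs_le] at h1 h2 ⊢
          push_cast
          constructor <;> omega
        have := eq_zero_of_dvd_of_lt (hs.2 j) h5 hr
        rw [this]; simp
    have := h.2 t ht
    convert this using 2

theorem cond_p_zero {p r ℓ : ℕ} {w : List (ℕ × Bool)} (hw : w.length ≤ ℓ)
    (hp : p = 0 ∨ ℓ < p) (h : Cond p r w) : Cond 0 r w := by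
  classical
  refine ⟨h.1, ?_⟩
  intro t ht
  have h1 := h.2 t ht
  have h2 := abs_sum_sgn w ((Finset.range w.length).filter (fun s => same r w s t))
  have h3 : ((Finset.range w.length).filter (fun s => same r w s t)).card ≤ ℓ := by
    refine (Finset.card_filter_le _ _).trans ?_
    simpa using hw
  have h4 := eq_zero_of_dvd_of_lt h1 (m := ℓ) (by
    refine le_trans ?_ (Int.ofNat_le.2 h3)
    convert h2 using 2) hp
  rw [h4]; simp

/-- Reduction to small `p`, `r`.

PROOF.  `|esum (pre w s) j| ≤ ℓ`, `|esum w i| ≤ ℓ`, all sums of signs have absolute value at most `ℓ`.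
If `2 ℓ < r` or `r = 0`: `Cond p r w` implies `Cond p 0 w` which implies `Cond p 2 w` (coarser classes
are unions of finer ones).  If `ℓ < p` or `p = 0`: `Cond p r w` implies `Cond 0 r w`, so `Cond 2 r w`. -/
theorem cond_small (ℓ p r : ℕ) (hp : p ≠ 1) (hr : r ≠ 1) (L : List (List (ℕ × Bool)))
    (hL : ∀ w ∈ L, w.length ≤ ℓ) (h : ∀ w ∈ L, Cond p r w) :
    ∃ p' r' : ℕ, 2 ≤ p' ∧ p' ≤ ℓ + 2 ∧ 2 ≤ r' ∧ r' ≤ 2 * ℓ + 2 ∧ ∀ w ∈ L, Cond p' r' w := by
  have key : ∃ r' : ℕ, 2 ≤ r' ∧ r' ≤ 2 * ℓ + 2 ∧ ∀ w ∈ L, Cond p r' w := by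
    by_cases h1 : r = 0 ∨ 2 * ℓ < r
    · exact ⟨2, le_rfl, by omega, fun w hw => cond_coarse 2 (cond_r_zero (hL w hw) h1 (h w hw))⟩
    · exact ⟨r, by omega, by omega, h⟩
  obtain ⟨r', h1, h2, h3⟩ := key
  by_cases h4 : p = 0 ∨ ℓ < p
  · refine ⟨2, r', le_rfl, by omega, h1, h2, fun w hw => ?_⟩
    have h5 := cond_p_zero (hL w hw) h4 (h3 w hw)
    refine ⟨h5.1, fun t ht => ?_⟩
    have := h5.2 t ht
    simp only [Nat.cast_zero, zero_dvd_iff] at this
    rw [this]; exact dvd_zero _
  · exact ⟨p, r', by omega, by omega, h1, h2, h3⟩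

end Pool.Agent.PAB
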