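import Pool.Agent.PAB.Defs

set_option autoImplicit false

open scoped commutatorElement

namespace Pool.Agent.PAB

/-- sign of a letter -/
def lsg (x : ℕ × Bool) : ℤ := if x.2 then 1 else -1

theorem esum_cons' (x : ℕ × Bool) (w : List (ℕ × Bool)) (i : ℕ) :
    esum (x :: w) i = (if x.1 = i then lsg x else 0) + esum w i := by
  obtain ⟨v, e⟩ := x
  unfold esum lsg
  simp only [List.count_cons]
  by_cases hv : v = i
  · subst hv
    cases e <;> simp <;> ring
  · cases e <;> simp [hv]

theorem lift_cons' {G : Type} [Group G] (f : ℕ → G) (x : ℕ × Bool) (w : List (ℕ × Bool)) :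
    FreeGroup.lift f (FreeGroup.mk (x :: w)) =
      (bif x.2 then f x.1 else (f x.1)⁻¹) * FreeGroup.lift f (FreeGroup.mk w) := by
  rw [FreeGroup.lift_mk, FreeGroup.lift_mk, List.map_cons, List.prod_cons]

/-- the coordinate `b` of the value of a word -/
def hb (w : List (ℕ × Bool)) (i j : ℕ) : ℤ :=
  (FreeGroup.lift (fun v => (⟨if v = i then 1 else 0, if v = j then 1 else 0, 0⟩ : Heis ℤ))
    (FreeGroup.mk w)).b

theorem hb_eq (w : List (ℕ × Bool)) (i j : ℕ) : hb w i j = esum w j := by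
  induction w with
  | nil => unfold hb esum; simp
  | cons x w ih =>
    unfold hb at ih ⊢
    rw [lift_cons', Heis.mul_b, ih, esum_cons']
    unfold lsg
    congr 1
    cases x.2 <;> by_cases h : x.1 = j <;> simp [h]

theorem hc_cons (x : ℕ × Bool) (w : List (ℕ × Bool)) (i j : ℕ) :
    hc (x :: w) i j = hc w i j + (if x.1 = i then lsg x * esum w j else 0) +
      (if x.2 then 0 else (if x.1 = i then 1 else 0) * (if x.1 = j then 1 else 0)) := by
  have h1 := hb_eq w i j
  unfold hb at h1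
  unfold hc
  rw [lift_cons', Heis.mul_c, h1]
  have hA : (if x.1 = i then lsg x * esum w j else 0) =
      (if x.1 = i then (1 : ℤ) else 0) * (lsg x * esum w j) := by
    split_ifs <;> simp
  rw [hA]
  unfold lsg
  cases x.2
  · simp only [cond_false, Heis.inv_c, Heis.inv_a, Bool.false_eq_true, if_false]
    ring
  · simp only [cond_true, if_true]
    ring

theorem hc_nil (i j : ℕ) : hc [] i j = 0 := by
  unfold hc; simp

theorem lift_heis {R : Type} [CommRing R] (f : ℕ → Heis R) (S : Finset ℕ)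
    (w : List (ℕ × Bool)) (hS : ∀ x ∈ w, x.1 ∈ S) :
    (FreeGroup.lift f (FreeGroup.mk w)).a = ∑ i ∈ S, (esum w i : R) * (f i).a ∧
    (FreeGroup.lift f (FreeGroup.mk w)).b = ∑ i ∈ S, (esum w i : R) * (f i).b ∧
    (FreeGroup.lift f (FreeGroup.mk w)).c = ∑ i ∈ S, (esum w i : R) * (f i).c +
      ∑ i ∈ S, ∑ j ∈ S, (hc w i j : R) * ((f i).a * (f j).b) := by
  induction w with
  | nil =>
    refine ⟨?_, ?_, ?_⟩ <;> simp [esum, hc_nil]
  | cons x w ih =>
    obtain ⟨ha, hb', hc'⟩ := ih (fun y hy => hS y (List.mem_cons_of_mem _ hy))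
    have hx : x.1 ∈ S := hS x List.mem_cons_self
    have e1 : ∀ g : ℕ → R, ∑ i ∈ S, (esum (x :: w) i : R) * g i =
        (lsg x : R) * g x.1 + ∑ i ∈ S, (esum w i : R) * g i := by
      intro g
      simp only [esum_cons']
      push_cast
      simp only [add_mul, ite_mul, zero_mul]
      rw [Finset.sum_add_distrib, Finset.sum_ite_eq, if_pos hx]
    have e2 : ∑ i ∈ S, ∑ j ∈ S, (hc (x :: w) i j : R) * ((f i).a * (f j).b) =
        ∑ i ∈ S, ∑ j ∈ S, (hc w i j : R) * ((f i).a * (f j).b) +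
        (lsg x : R) * (f x.1).a * (∑ j ∈ S, (esum w j : R) * (f j).b) +
        (if x.2 then 0 else (f x.1).a * (f x.1).b) := by
      have h1 : ∀ i ∈ S, ∑ j ∈ S, (hc (x :: w) i j : R) * ((f i).a * (f j).b) =
          ∑ j ∈ S, (hc w i j : R) * ((f i).a * (f j).b) +
          (if x.1 = i then (lsg x : R) * (f x.1).a * (∑ j ∈ S, (esum w j : R) * (f j).b) else 0) +
          (if x.1 = i then (if x.2 then 0 else (f x.1).a * (f x.1).b) else 0) := by
        intro i _
        simp only [hc_cons]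
        push_cast
        simp only [add_mul, Finset.sum_add_distrib]
        congr 1
        · congr 1
          by_cases h : x.1 = i
          · subst h
            simp only [if_true]
            rw [Finset.mul_sum]
            apply Finset.sum_congr rfl
            intro j _
            push_cast
            ring
          · simp [h]
        · by_cases h : x.1 = i
          · subst h
            cases x.2
            · simp only [if_true, Bool.false_eq_true, if_false, Int.cast_ite, Int.cast_one,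
                Int.cast_zero, one_mul, ite_mul, zero_mul]
              rw [Finset.sum_ite_eq, if_pos hx]
            · simp
          · cases x.2 <;> simp [h]
      rw [Finset.sum_congr rfl h1, Finset.sum_add_distrib, Finset.sum_add_distrib,
        Finset.sum_ite_eq, if_pos hx, Finset.sum_ite_eq, if_pos hx]
    rw [e1 (fun i => (f i).a), e1 (fun i => (f i).b), e1 (fun i => (f i).c), e2, lift_cons',
      Heis.mul_a, Heis.mul_b, Heis.mul_c, ha, hb', hc']
    unfold lsg
    refine ⟨?_, ?_, ?_⟩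
    · cases x.2 <;> simp
    · cases x.2 <;> simp
    · cases x.2
      · simp
        ring
      · simp
        ring

/-- PROOF.  By induction on `w` (as `(v, ε) :: w'`), for a finite set `S` containing all variables of
`w`: `(lift f (mk w)).a = ∑ i ∈ S, esum w i * (f i).a`, same for `b`, and
`(lift f (mk w)).c = ∑ i ∈ S, esum w i * (f i).c + ∑ i ∈ S, ∑ j ∈ S, hc w i j * (f i).a * (f j).b`, using
`hc ((v, ε) :: w') i j = [v = i] (±1) esum w' j + [v = i = j and ε = false] + hc w' i j`. -/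
theorem lift_heis_eq_one {R : Type} [CommRing R] (p : ℕ) (hp : (p : R) = 0)
    (w : List (ℕ × Bool)) (h : CondH p w) (f : ℕ → Heis R) :
    FreeGroup.lift f (FreeGroup.mk w) = 1 := by
  have hz : ∀ x : ℤ, (p : ℤ) ∣ x → (x : R) = 0 := by
    rintro _ ⟨y, rfl⟩
    push_cast
    rw [hp, zero_mul]
  obtain ⟨ha, hb', hc'⟩ := lift_heis f (w.map Prod.fst).toFinset w (by
    intro x hx
    rw [List.mem_toFinset]
    exact List.mem_map.2 ⟨x, hx, rfl⟩)
  have e1 : ∀ i, ((esum w i : ℤ) : R) = 0 := fun i => hz _ (h.1 i)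
  have e2 : ∀ i j, ((hc w i j : ℤ) : R) = 0 := fun i j => hz _ (h.2 i j)
  ext
  · rw [ha]; simp [e1]
  · rw [hb']; simp [e1]
  · rw [hc']; simp [e1, e2]

theorem conj_pow_pow {H : Type} [Group H] (x y : H) (hz : ⁅x, y⁆ ∈ Subgroup.center H) (a b : ℤ) :
    x ^ a * y ^ b = ⁅x, y⁆ ^ (a * b) * y ^ b * x ^ a := by
  set z := ⁅x, y⁆ with hzd
  have hc : ∀ g : H, Commute z g := fun g => ((Subgroup.mem_center_iff.1 hz) g).symm
  have h1 : x * y * x⁻¹ = z * y := by rw [hzd, commutatorElement_def]; group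
  have h2 : x * y ^ b * x⁻¹ = z ^ b * y ^ b := by
    rw [← conj_zpow, h1, (hc y).mul_zpow]
  have h3 : (y ^ b)⁻¹ * x * y ^ b = z ^ b * x := by
    have h4 : x * y ^ b = z ^ b * y ^ b * x := by
      rw [← h2]; group
    have h5 : Commute (z ^ b) ((y ^ b)⁻¹) := (hc _).zpow_left b
    rw [mul_assoc, h4, ← mul_assoc, ← mul_assoc, ← h5.eq, mul_assoc (z ^ b), inv_mul_cancel, mul_one]
  have h6 : (y ^ b)⁻¹ * x ^ a * y ^ b = z ^ (a * b) * x ^ a := by
    have h7 : (y ^ b)⁻¹ * x ^ a * y ^ b = ((y ^ b)⁻¹ * x * y ^ b) ^ a := by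
      have := conj_zpow (i := a) (a := (y ^ b)⁻¹) (b := x)
      rw [inv_inv] at this
      exact this.symm
    rw [h7, h3, ((hc x).zpow_left b).mul_zpow, ← zpow_mul, mul_comm b a]
  have h8 : Commute (z ^ (a * b)) (y ^ b) := (hc _).zpow_left _
  have h9 := congrArg (fun t => y ^ b * t) h6
  simp only [← mul_assoc, mul_inv_cancel, one_mul] at h9
  rw [h9, h8.eq]

/-- PROOF.  `Φ (a, b, c) = z ^ c * y ^ b * x ^ a` with `z = ⁅x, y⁆` central is a homomorphism
`Heis ℤ →* H` (`x ^ a * y ^ b = z ^ (a * b) * y ^ b * x ^ a`).  With `f v = (δ_vi, 0, 0)`: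
`x ^ (esum w i) = 1`, so `z ^ (esum w i) = 1` and `p ∣ esum w i`; same for `y`.  With
`f v = (δ_vi, δ_vj, 0)`: `z ^ (hc w i j) * y ^ (esum w j) * x ^ (esum w i) = 1`, so `p ∣ hc w i j`. -/
theorem condH_of_central {H : Type} [Group H] (x y : H) (p : ℕ)
    (hz : ⁅x, y⁆ ∈ Subgroup.center H) (hp : orderOf ⁅x, y⁆ = p) (w : List (ℕ × Bool))
    (h : ∀ f : ℕ → H, FreeGroup.lift f (FreeGroup.mk w) = 1) : CondH p w := by
  set z := ⁅x, y⁆ with hzd
  have hc' : ∀ g : H, Commute z g := fun g => ((Subgroup.mem_center_iff.1 hz) g).symm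
  let Φ : Heis ℤ →* H := MonoidHom.mk' (fun q => z ^ q.c * y ^ q.b * x ^ q.a) (by
    intro q q'
    simp only [Heis.mul_a, Heis.mul_b, Heis.mul_c]
    have h1 := conj_pow_pow x y hz q.a q'.b
    rw [← hzd] at h1
    have h2 : Commute (z ^ (q.a * q'.b)) (y ^ q.b) := (hc' _).zpow_left _
    have h3 : Commute (z ^ q'.c) (z ^ q.c * y ^ q.b * x ^ q.a) := (hc' _).zpow_left _
    calc z ^ (q.c + q'.c + q.a * q'.b) * y ^ (q.b + q'.b) * x ^ (q.a + q'.a)
        = z ^ q'.c * z ^ q.c * (z ^ (q.a * q'.b) * y ^ q.b) * y ^ q'.b * x ^ q.a * x ^ q'.a := by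
          rw [zpow_add, zpow_add, zpow_add, zpow_add, ← zpow_add z, add_comm q.c, zpow_add z]
          simp only [mul_assoc]
      _ = z ^ q'.c * z ^ q.c * y ^ q.b * (z ^ (q.a * q'.b) * y ^ q'.b * x ^ q.a) * x ^ q'.a := by
          rw [h2.eq]; simp only [mul_assoc]
      _ = z ^ q'.c * (z ^ q.c * y ^ q.b * x ^ q.a) * y ^ q'.b * x ^ q'.a := by
          rw [← h1]; simp only [mul_assoc]
      _ = z ^ q.c * y ^ q.b * x ^ q.a * (z ^ q'.c * y ^ q'.b * x ^ q'.a) := by
          rw [h3.eq]; simp only [mul_assoc])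
  have hmap : ∀ (f : ℕ → Heis ℤ) (u : FreeGroup ℕ), Φ (FreeGroup.lift f u) =
      FreeGroup.lift (fun i => Φ (f i)) u := by
    intro f u
    have h1 : (Φ.comp (FreeGroup.lift f)) = FreeGroup.lift (fun i => Φ (f i)) := by
      ext i; simp
    exact DFunLike.congr_fun h1 u
  have hdvd : ∀ n : ℤ, z ^ n = 1 → (p : ℤ) ∣ n := by
    intro n hn
    rw [← hp]
    exact orderOf_dvd_iff_zpow_eq_one.2 hn
  -- exponent sums
  have hx1 : ∀ (i : ℕ) (g : H), g ^ (esum w i) = 1 := by
    intro i g
    have h1 : ∀ w : List (ℕ × Bool), FreeGroup.lift (fun v => if v = i then g else 1)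
        (FreeGroup.mk w) = g ^ (esum w i) := by
      intro w
      induction w with
      | nil => simp [esum]
      | cons a w ih =>
        rw [lift_cons', ih, esum_cons', zpow_add]
        congr 1
        unfold lsg
        cases a.2 <;> by_cases hv : a.1 = i <;> simp [hv]
    rw [← h1]; exact h _
  have he : ∀ i, (p : ℤ) ∣ esum w i := by
    intro i
    apply hdvd
    have h1 := conj_pow_pow x y hz (esum w i) 1
    rw [← hzd, hx1 i x, zpow_one, mul_one, one_mul, mul_one] at h1
    exact (mul_eq_right.1 h1.symm)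
  refine ⟨he, fun i j => ?_⟩
  have h1 := hmap (fun v => (⟨if v = i then 1 else 0, if v = j then 1 else 0, 0⟩ : Heis ℤ))
    (FreeGroup.mk w)
  rw [h] at h1
  have h2 := hb_eq w i j
  have h3 : (FreeGroup.lift (fun v => (⟨if v = i then 1 else 0, if v = j then 1 else 0, 0⟩ : Heis ℤ))
    (FreeGroup.mk w)).a = esum w i := by
    have h4 : ∀ w : List (ℕ × Bool), (FreeGroup.lift (fun v => (⟨if v = i then 1 else 0,
        if v = j then 1 else 0, 0⟩ : Heis ℤ)) (FreeGroup.mk w)).a = esum w i := by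
      intro w
      induction w with
      | nil => unfold esum; simp
      | cons x w ih =>
        rw [lift_cons', Heis.mul_a, ih, esum_cons']
        unfold lsg
        congr 1
        cases x.2 <;> by_cases h : x.1 = i <;> simp [h]
    exact h4 w
  have h5 : Φ (FreeGroup.lift (fun v => (⟨if v = i then 1 else 0, if v = j then 1 else 0, 0⟩ : Heis ℤ))
    (FreeGroup.mk w)) = z ^ (hc w i j) * y ^ (esum w j) * x ^ (esum w i) := by
    rw [← h3, ← h2]
    rfl
  rw [h5, hx1 j y, hx1 i x, mul_one, mul_one] at h1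
  exact hdvd _ h1

theorem abs_esum_le' (l : List (ℕ × Bool)) (j : ℕ) : |esum l j| ≤ l.length := by
  have h1 : l.count (j, true) ≤ l.length := List.count_le_length
  have h2 : l.count (j, false) ≤ l.length := List.count_le_length
  unfold esum
  rw [abs_le]
  constructor <;> omega

theorem abs_hc_le (w : List (ℕ × Bool)) (i j : ℕ) :
    |hc w i j| ≤ (w.length : ℤ) * (w.length + 1) := by
  induction w with
  | nil => rw [hc_nil]; simp
  | cons x w ih =>
    rw [hc_cons]
    have h1 := abs_esum_le' w j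
    have h2 : |(if x.1 = i then lsg x * esum w j else 0)| ≤ w.length := by
      unfold lsg
      cases x.2 <;> by_cases h : x.1 = i <;> simp [h] <;> exact h1
    have h3 : |(if x.2 then (0 : ℤ) else (if x.1 = i then 1 else 0) * (if x.1 = j then 1 else 0))| ≤ 1 := by
      split_ifs <;> simp
    have h4 := abs_add_three (hc w i j) (if x.1 = i then lsg x * esum w j else 0)
      (if x.2 then (0 : ℤ) else (if x.1 = i then 1 else 0) * (if x.1 = j then 1 else 0))
    rw [List.length_cons]
    push_cast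
    nlinarith

/-- PROOF.  `|hc w i j| ≤ ℓ (ℓ + 1)` and `|esum w i| ≤ ℓ` by the recursion in `lift_heis_eq_one`; if `p = 0`
or `p > ℓ (ℓ + 1)` then all of these are `0` and `p' = 2` works; otherwise `p' = p`. -/
theorem condH_small (ℓ p : ℕ) (hp : p ≠ 1) (L : List (List (ℕ × Bool)))
    (hL : ∀ w ∈ L, w.length ≤ ℓ) (h : ∀ w ∈ L, CondH p w) :
    ∃ p' : ℕ, 2 ≤ p' ∧ p' ≤ (ℓ + 2) ^ 2 ∧ ∀ w ∈ L, CondH p' w := by
  by_cases h1 : p = 0 ∨ (ℓ + 2) ^ 2 < p
  · refine ⟨2, le_rfl, by
      have : 2 ^ 2 ≤ (ℓ + 2) ^ 2 := Nat.pow_le_pow_left (by omega) 2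
      omega, fun w hw => ?_⟩
    have key : ∀ x : ℤ, (p : ℤ) ∣ x → |x| ≤ (ℓ : ℤ) * (ℓ + 1) → ((2 : ℕ) : ℤ) ∣ x := by
      intro x hx hb
      have h2 : x = 0 := by
        rcases h1 with rfl | h1
        · simpa using hx
        · apply Int.eq_zero_of_abs_lt_dvd hx
          have h1' : (((ℓ + 2) ^ 2 : ℕ) : ℤ) < (p : ℤ) := by exact_mod_cast h1
          push_cast at h1'
          nlinarith
      rw [h2]; exact dvd_zero _
    have hlen : (w.length : ℤ) ≤ ℓ := by exact_mod_cast hL w hw
    refine ⟨fun i => key _ ((h w hw).1 i) ?_, fun i j => key _ ((h w hw).2 i j) ?_⟩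
    · have := abs_esum_le' w i
      nlinarith
    · have := abs_hc_le w i j
      have h0 : (0 : ℤ) ≤ w.length := by positivity
      nlinarith
  · push Not at h1
    exact ⟨p, by omega, h1.2, h⟩

end Pool.Agent.PAB
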