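import Pool.Agent.PAB.Defs

set_option autoImplicit false

open scoped commutatorElement

namespace Pool.Agent.PAB

/-- Every proper subgroup of `G` is commutative. -/
def ProperComm (G : Type) [Group G] : Prop :=
  ∀ H : Subgroup G, H ≠ ⊤ → ∀ a ∈ H, ∀ b ∈ H, a * b = b * a

section simple

variable {G : Type} [Group G] [Finite G]

omit [Finite G] in
/-- two maximal subgroups with a common nontrivial element are equal -/
theorem coatom_eq (hP : ProperComm G) (hc : Subgroup.center G = ⊥)
    {M M' : Subgroup G} (hM : IsCoatom M) (hM' : IsCoatom M') (u : G) (hu : u ≠ 1)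
    (h1 : u ∈ M) (h2 : u ∈ M') : M = M' := by
  by_contra hne
  have h3 := hM.sup_eq_top_of_ne hM' hne
  apply hu
  have h4 : u ∈ Subgroup.center G := by
    rw [Subgroup.mem_center_iff]
    intro g
    have h5 : M ⊔ M' ≤ Subgroup.centralizer {u} := by
      refine sup_le ?_ ?_
      · intro x hx
        rw [Subgroup.mem_centralizer_singleton_iff]
        exact hP M hM.1 _ hx _ h1
      · intro x hx
        rw [Subgroup.mem_centralizer_singleton_iff]
        exact hP M' hM'.1 _ hx _ h2
    rw [h3] at h5
    exact Subgroup.mem_centralizer_singleton_iff.1 (h5 (Subgroup.mem_top g))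
  rw [hc] at h4
  exact Subgroup.mem_bot.1 h4

omit [Finite G] in
/-- a maximal subgroup meets a conjugate of a maximal subgroup trivially or is equal to it -/
theorem coatom_conj (hP : ProperComm G) (hc : Subgroup.center G = ⊥)
    {M M' : Subgroup G} (hM : IsCoatom M) (hM' : IsCoatom M') (x m n : G) (hm : m ≠ 1)
    (h1 : m ∈ M) (h2 : n ∈ M') (e : m = x * n * x⁻¹) (y : G) : y ∈ M ↔ x⁻¹ * y * x ∈ M' := by
  have hco : IsCoatom ((MulAut.conj x).mapSubgroup M') :=
    (OrderIso.isCoatom_iff _ _).2 hM'
  have hmem : ∀ z : G, z ∈ (MulAut.conj x).mapSubgroup M' ↔ x⁻¹ * z * x ∈ M' := by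
    intro z
    constructor
    · rintro ⟨w, hw, rfl⟩
      simpa [mul_assoc] using hw
    · intro hz
      refine ⟨x⁻¹ * z * x, hz, ?_⟩
      simp [mul_assoc]
  have heq : M = (MulAut.conj x).mapSubgroup M' := by
    apply coatom_eq hP hc hM hco m hm h1
    rw [hmem, e]
    simpa [mul_assoc] using h2
  rw [← hmem, ← heq]

/-- the conjugates of the nontrivial elements of `M` -/
noncomputable def cj (M : Subgroup G) (p : (G ⧸ M) × {m : G // m ∈ M ∧ m ≠ 1}) : G :=
  p.1.out * p.2.1 * (p.1.out)⁻¹

omit [Finite G] in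
theorem cj_ne_one (M : Subgroup G) (p : (G ⧸ M) × {m : G // m ∈ M ∧ m ≠ 1}) : cj M p ≠ 1 := by
  intro h
  apply p.2.2.2
  unfold cj at h
  have h1 : p.1.out * p.2.1 = p.1.out := by
    have := mul_inv_eq_one.1 h
    exact this
  exact mul_eq_left.1 h1

omit [Finite G] in
theorem cj_eq (M M' : Subgroup G) (p : (G ⧸ M) × {m : G // m ∈ M ∧ m ≠ 1})
    (p' : (G ⧸ M') × {m : G // m ∈ M' ∧ m ≠ 1}) (h : cj M p = cj M' p') :
    p.2.1 = (p.1.out⁻¹ * p'.1.out) * p'.2.1 * (p.1.out⁻¹ * p'.1.out)⁻¹ := by
  unfold cj at h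
  have : p.2.1 = p.1.out⁻¹ * (p.1.out * p.2.1 * (p.1.out)⁻¹) * p.1.out := by
    simp [mul_assoc]
  rw [this, h]
  simp [mul_assoc]

theorem cj_injective (hP : ProperComm G) (hc : Subgroup.center G = ⊥)
    {M : Subgroup G} (hM : IsCoatom M) (hn : ¬ M.Normal) : Function.Injective (cj M) := by
  intro p p' h
  have h1 := cj_eq M M p p' h
  set x := p.1.out⁻¹ * p'.1.out with hx
  have h2 := coatom_conj hP hc hM hM x p.2.1 p'.2.1 p.2.2.2 p.2.2.1 p'.2.2.1 h1
  have h3 : x ∈ Subgroup.normalizer (M : Set G) := by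
    rw [Subgroup.mem_normalizer_iff'']
    intro y
    exact h2 y
  have h4 : Subgroup.normalizer (M : Set G) = M := by
    rcases hM.le_iff.1 (Subgroup.le_normalizer (H := M)) with h5 | h5
    · exact absurd (Subgroup.normalizer_eq_top_iff.1 h5) hn
    · exact h5
  rw [h4] at h3
  have h5 : p.1 = p'.1 := by
    rw [← QuotientGroup.out_eq' p.1, ← QuotientGroup.out_eq' p'.1]
    rw [QuotientGroup.eq]
    exact h3
  apply Prod.ext h5
  apply Subtype.ext
  have h6 : x = 1 := by
    rw [hx, h5, inv_mul_cancel]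
  rw [h1, h6]
  simp

theorem card_cj (M : Subgroup G) :
    Nat.card ((G ⧸ M) × {m : G // m ∈ M ∧ m ≠ 1}) + M.index = Nat.card G := by
  have h1 : Nat.card {m : G // m ∈ M ∧ m ≠ 1} + 1 = Nat.card M := by
    have e : {m : G // m ∈ M ∧ m ≠ 1} ≃ {m : M // m ≠ 1} :=
      { toFun := fun m => ⟨⟨m.1, m.2.1⟩, fun h => m.2.2 (congrArg Subtype.val h)⟩
        invFun := fun m => ⟨m.1.1, m.1.2, fun h => m.2 (Subtype.ext h)⟩
        left_inv := fun _ => rfl
        right_inv := fun _ => rfl }
    rw [Nat.card_congr e]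
    classical
    have := Fintype.ofFinite M
    have := Fintype.ofFinite {m : M // m ≠ 1}
    rw [Nat.card_eq_fintype_card, Nat.card_eq_fintype_card]
    have := Fintype.card_subtype_compl (fun m : M => m = 1)
    rw [Fintype.card_subtype_eq] at this
    have h2 : Fintype.card {m : M // m ≠ 1} = Fintype.card M - 1 := by
      rw [← this]
    have h3 : 0 < Fintype.card M := Fintype.card_pos
    omega
  rw [Nat.card_prod]
  have h2 : Nat.card (G ⧸ M) = M.index := rfl
  rw [h2, ← M.index_mul_card, ← h1]
  ring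

theorem simple_case (hP : ProperComm G) (hG : ¬ Comm G)
    (hN : ∀ N : Subgroup G, N.Normal → N = ⊥ ∨ N = ⊤) : False := by
  have hc : Subgroup.center G = ⊥ := by
    rcases hN (Subgroup.center G) inferInstance with h | h
    · exact h
    · exfalso
      apply hG
      intro a b
      have : b ∈ Subgroup.center G := h ▸ Subgroup.mem_top b
      exact Subgroup.mem_center_iff.1 this a
  -- every element lies in a maximal subgroup
  have hmax : ∀ g : G, ∃ M : Subgroup G, IsCoatom M ∧ g ∈ M := by
    intro g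
    rcases IsCoatomic.eq_top_or_exists_le_coatom (Subgroup.zpowers g) with h | ⟨M, hM, h⟩
    · exfalso
      apply hG
      intro a b
      have ha : a ∈ Subgroup.zpowers g := h ▸ Subgroup.mem_top a
      have hb : b ∈ Subgroup.zpowers g := h ▸ Subgroup.mem_top b
      obtain ⟨i, rfl⟩ := ha
      obtain ⟨j, rfl⟩ := hb
      exact zpow_mul_comm g i j
    · exact ⟨M, hM, h (Subgroup.mem_zpowers g)⟩
  have hnn : ∀ M : Subgroup G, IsCoatom M → (∃ g ∈ M, g ≠ 1) → ¬ M.Normal := by
    intro M hM ⟨g, hg, hg1⟩ hn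
    rcases hN M hn with h | h
    · rw [h] at hg
      exact hg1 (Subgroup.mem_bot.1 hg)
    · exact hM.1 h
  have hidx : ∀ M : Subgroup G, IsCoatom M → 2 ≤ M.index := by
    intro M hM
    have h1 : M.index ≠ 1 := fun h => hM.1 (Subgroup.index_eq_one.1 h)
    have h2 : M.index ≠ 0 := Subgroup.index_ne_zero_of_finite
    omega
  have : Nontrivial G := by
    rcases subsingleton_or_nontrivial G with h | h
    · exact absurd (fun a b => Subsingleton.elim _ _) hG
    · exact h
  obtain ⟨g, hg⟩ := exists_ne (1 : G)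
  obtain ⟨M, hM, hgM⟩ := hmax g
  have hMn := hnn M hM ⟨g, hgM, hg⟩
  have hinj := cj_injective hP hc hM hMn
  have hcard := card_cj M
  -- an element outside the conjugates of `M`
  have hex : ∃ y : G, y ≠ 1 ∧ ∀ p, cj M p ≠ y := by
    by_contra hcon
    push Not at hcon
    have hsurj : Function.Surjective
        (fun p : Option ((G ⧸ M) × {m : G // m ∈ M ∧ m ≠ 1}) => p.elim 1 (cj M)) := by
      intro y
      by_cases hy : y = 1
      · exact ⟨none, hy.symm⟩
      · obtain ⟨p, hp⟩ := hcon y hy
        exact ⟨some p, hp⟩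
    have h1 := Nat.card_le_card_of_surjective _ hsurj
    rw [Finite.card_option] at h1
    have := hidx M hM
    omega
  obtain ⟨y, hy, hyM⟩ := hex
  obtain ⟨M', hM', hyM'⟩ := hmax y
  have hMn' := hnn M' hM' ⟨y, hyM', hy⟩
  have hinj' := cj_injective hP hc hM' hMn'
  have hcard' := card_cj M'
  have hdisj : ∀ p p', cj M p ≠ cj M' p' := by
    intro p p' h
    have h1 := cj_eq M M' p p' h
    set x := p.1.out⁻¹ * p'.1.out with hx
    have h2 := coatom_conj hP hc hM hM' x p.2.1 p'.2.1 p.2.2.2 p.2.2.1 p'.2.2.1 h1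
    -- `x y x⁻¹ ∈ M`
    have h3 : x * y * x⁻¹ ∈ M := by
      rw [h2]
      simpa [mul_assoc] using hyM'
    -- so `y` is a conjugate of an element of `M`
    let q : G ⧸ M := QuotientGroup.mk x⁻¹
    have h4 : q.out⁻¹ * x⁻¹ ∈ M := by
      rw [← QuotientGroup.eq, QuotientGroup.out_eq']
    have h5 : q.out⁻¹ * y * q.out ∈ M := by
      have : q.out⁻¹ * y * q.out = (q.out⁻¹ * x⁻¹) * (x * y * x⁻¹) * (q.out⁻¹ * x⁻¹)⁻¹ := by
        simp [mul_assoc]
      rw [this]
      exact M.mul_mem (M.mul_mem h4 h3) (M.inv_mem h4)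
    have h6 : q.out⁻¹ * y * q.out ≠ 1 := by
      intro h7
      apply hy
      have : y = q.out * (q.out⁻¹ * y * q.out) * q.out⁻¹ := by simp [mul_assoc]
      rw [this, h7]
      simp
    apply hyM (q, ⟨_, h5, h6⟩)
    simp [cj, mul_assoc]
  have hinj2 : Function.Injective
      (fun s : Option (((G ⧸ M) × {m : G // m ∈ M ∧ m ≠ 1}) ⊕
        ((G ⧸ M') × {m : G // m ∈ M' ∧ m ≠ 1})) =>
        s.elim (1 : G) (Sum.elim (cj M) (cj M'))) := by
    rintro (_ | (p | p)) (_ | (q | q)) h
    · rfl
    · exact absurd h.symm (cj_ne_one M q)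
    · exact absurd h.symm (cj_ne_one M' q)
    · exact absurd h (cj_ne_one M p)
    · rw [hinj h]
    · exact absurd h (hdisj p q)
    · exact absurd h (cj_ne_one M' p)
    · exact absurd h.symm (hdisj q p)
    · rw [hinj' h]
  have h1 := Nat.card_le_card_of_injective _ hinj2
  rw [Finite.card_option, Nat.card_sum] at h1
  have h2 : M.index * 2 ≤ Nat.card G := by
    have h3 := M.index_mul_card
    have h4 : 2 ≤ Nat.card M := by
      have : Nontrivial M := ⟨⟨⟨g, hgM⟩, 1, fun h => hg (congrArg Subtype.val h)⟩⟩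
      exact Finite.one_lt_card
    calc M.index * 2 ≤ M.index * Nat.card M := Nat.mul_le_mul_left _ h4
      _ = _ := h3
  have h2' : M'.index * 2 ≤ Nat.card G := by
    have h3 := M'.index_mul_card
    have h4 : 2 ≤ Nat.card M' := by
      have : Nontrivial M' := ⟨⟨⟨y, hyM'⟩, 1, fun h => hy (congrArg Subtype.val h)⟩⟩
      exact Finite.one_lt_card
    calc M'.index * 2 ≤ M'.index * Nat.card M' := Nat.mul_le_mul_left _ h4
      _ = _ := h3
  omega

end simple

theorem solvable_of_properComm (n : ℕ) : ∀ (G : Type) [Group G] [Finite G], Nat.card G = n →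
    ProperComm G → Group.IsSolvable G := by
  induction n using Nat.strong_induction_on with
  | _ n ih =>
  intro G _ _ hn hP
  by_cases hG : Comm G
  · exact Group.isSolvable_of_comm hG
  by_cases hN : ∀ N : Subgroup G, N.Normal → N = ⊥ ∨ N = ⊤
  · exact (simple_case hP hG hN).elim
  · push Not at hN
    obtain ⟨N, hNn, hN1, hN2⟩ := hN
    have : Group.IsSolvable N := Group.isSolvable_of_comm (fun a b =>
      Subtype.ext (hP N hN2 a.1 a.2 b.1 b.2))
    have hlt : Nat.card (G ⧸ N) < n := by
      have h1 : N.index * Nat.card N = Nat.card G := N.index_mul_card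
      have h2 : 1 < Nat.card N := by
        rw [Finite.one_lt_card_iff_nontrivial]
        exact (Subgroup.nontrivial_iff_ne_bot N).2 hN1
      have h3 : 0 < Nat.card (G ⧸ N) := Nat.card_pos
      have h4 : Nat.card (G ⧸ N) = N.index := rfl
      rw [h4] at h3 ⊢
      rw [← hn, ← h1]
      nlinarith
    have : Group.IsSolvable (G ⧸ N) := by
      apply ih _ hlt (G ⧸ N) rfl
      intro K hK a ha b hb
      obtain ⟨a, rfl⟩ := QuotientGroup.mk_surjective a
      obtain ⟨b, rfl⟩ := QuotientGroup.mk_surjective b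
      have h1 : K.comap (QuotientGroup.mk' N) ≠ ⊤ := by
        intro h
        apply hK
        rw [Subgroup.eq_top_iff']
        intro x
        obtain ⟨x, rfl⟩ := QuotientGroup.mk_surjective x
        have : x ∈ K.comap (QuotientGroup.mk' N) := h ▸ Subgroup.mem_top x
        exact this
      have h2 := hP _ h1 a ha b hb
      rw [← QuotientGroup.mk_mul, h2, QuotientGroup.mk_mul]
    exact Group.isSolvable_of_ker_le_range N.subtype (QuotientGroup.mk' N) (by simp)

/-- Miller-Moreno: a finite non-commutative group has a non-commutative metabelian subgroup.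

PROOF.  Call a finite group *minimal* if it is non-commutative and all its proper subgroups are
commutative.  A non-commutative subgroup `H` of `G` of least order is minimal; show `Metab H`.
(a) Claim: every finite group all of whose proper subgroups are commutative is `IsSolvable`.  Strong
induction on the order.  If it is commutative: clear.  If it has a normal subgroup `1 < N < G`, then
`N` is commutative and all proper subgroups of `G/N` are commutative, so `G/N` is solvable by
induction, hence `G` is.  Otherwise `G` is simple and non-commutative, centre `= 1`.  Let `M` be a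
maximal subgroup.  `M ≠ 1` (else `G` has no proper nontrivial subgroups and is cyclic).  `M` is not
normal so its normaliser is `M`.  If `1 ≠ u ∈ M ∩ M'` with `M ≠ M'` both maximal then `u` commutes
with `M` and `M'`, so with `M ⊔ M' = ⊤`, so `u` is central, `u = 1`: contradiction.  Let `U(M)` be the
set of all `g m g⁻¹`, `g ∈ G`, `1 ≠ m ∈ M`.  The map `(g, m) ↦ g m g⁻¹` from `G × (M \ 1)` to `U(M)` has
all fibres of size `|M|` (if `g m g⁻¹ = h n h⁻¹ ≠ 1` then `M` and its conjugate by `g⁻¹ h` meet
nontrivially, so they are equal, so `g⁻¹ h ∈ M` and `m = n` as `M` is commutative).  So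
`|U(M)| = |G| (|M| - 1) / |M| ≥ |G| / 2`.  And `|U(M)| = |G| - |G|/|M| < |G| - 1`, so there is `g ≠ 1`
outside `U(M)`; `zpowers g ≠ ⊤`, so `g` lies in a maximal subgroup `M'`, not conjugate to `M`; `U(M)`
and `U(M')` are disjoint (same argument), do not contain `1`, and have together at least `|G|`
elements: contradiction.
(b) `H` minimal is solvable by (a) and not commutative, so its commutator subgroup is proper,
hence commutative, and `H / [H, H]` is commutative: `Metab H`. -/
theorem exists_metab_of_finite (G : Type) [Group G] (hf : Finite G) (h : ¬ Comm G) :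
    ∃ H : Subgroup G, Metab H ∧ ¬ Comm H := by
  classical
  have hne : ∃ n : ℕ, ∃ H : Subgroup G, Nat.card H = n ∧ ¬ Comm H := by
    refine ⟨_, ⊤, rfl, ?_⟩
    intro hc
    apply h
    intro a b
    exact congrArg Subtype.val (hc ⟨a, Subgroup.mem_top a⟩ ⟨b, Subgroup.mem_top b⟩)
  obtain ⟨H, hcard, hH⟩ := Nat.find_spec hne
  refine ⟨H, ?_, hH⟩
  have hP : ProperComm H := by
    intro K hK a ha b hb
    by_contra hab
    have hnc : ¬ Comm (K.map H.subtype) := by
      intro hc
      apply hab
      have h1 := hc ⟨a.1, ⟨a, ha, rfl⟩⟩ ⟨b.1, ⟨b, hb, rfl⟩⟩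
      exact Subtype.ext (congrArg (fun z : (K.map H.subtype) => (z : G)) h1)
    have h1 : Nat.card (K.map H.subtype) = Nat.card K :=
      Subgroup.card_map_of_injective H.subtype_injective
    have h2 : Nat.card K < Nat.card H := by
      have h3 := K.index_mul_card
      have h4 : K.index ≠ 1 := fun h => hK (Subgroup.index_eq_one.1 h)
      have h5 : K.index ≠ 0 := Subgroup.index_ne_zero_of_finite
      have h6 : 0 < Nat.card K := Nat.card_pos
      have h7 : 2 ≤ K.index := by omega
      nlinarith
    have h3 := Nat.find_min' hne ⟨K.map H.subtype, rfl, hnc⟩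
    omega
  have : Group.IsSolvable H := solvable_of_properComm _ H rfl hP
  have : Nontrivial H := by
    rcases subsingleton_or_nontrivial H with h | h
    · exact absurd (fun a b => Subsingleton.elim _ _) hH
    · exact h
  have hlt : commutator H < ⊤   := Group.IsSolvable.commutator_lt_top_of_nontrivial H
  refine ⟨commutator H, inferInstance, ?_, ?_⟩
  · intro a b
    exact Subtype.ext (hP _ hlt.ne a.1 a.2 b.1 b.2)
  · intro a b
    exact mul_comm (G := Abelianization H) a b

end Pool.Agent.PAB
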