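import Pool.Agent.PAB.Defs
import Pool.Agent.PAB.MM

set_option autoImplicit false

open scoped commutatorElement

namespace Pool.Agent.PAB

theorem map_lift_eq {G H : Type} [Group G] [Group H] (φ : G →* H) (f : ℕ → G) (x : FreeGroup ℕ) :
    φ (FreeGroup.lift f x) = FreeGroup.lift (fun i => φ (f i)) x := by
  have h : (φ.comp (FreeGroup.lift f)) = FreeGroup.lift (fun i => φ (f i)) := by
    ext i; simp
  exact DFunLike.congr_fun h x

theorem sat_subgroup {L : List (List (ℕ × Bool))} {G : Type} [Group G] (hG : Sat L G)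
    (H : Subgroup G) : Sat L H := by
  intro w hw f
  have h := hG w hw (fun i => H.subtype (f i))
  rw [← map_lift_eq] at h
  exact (map_eq_one_iff H.subtype H.subtype_injective).1 h

theorem sat_surj {L : List (List (ℕ × Bool))} {G H : Type} [Group G] [Group H] (hG : Sat L G)
    (φ : G →* H) (hφ : Function.Surjective φ) : Sat L H := by
  intro w hw f
  choose g hg using fun i => hφ (f i)
  have h := hG w hw g
  have h2 := congrArg φ h
  rw [map_lift_eq, map_one] at h2
  rw [← h2]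
  congr 2
  funext i
  exact (hg i).symm

theorem sat_quot {L : List (List (ℕ × Bool))} {G : Type} [Group G] (hG : Sat L G)
    (N : Subgroup G) [N.Normal] : Sat L (G ⧸ N) :=
  sat_surj hG (QuotientGroup.mk' N) (QuotientGroup.mk'_surjective N)

theorem mem_center_iff' {G : Type} [Group G] (x : G) :
    x ∈ Subgroup.center G ↔ ∀ g : G, ⁅x, g⁆ = 1 := by
  rw [Subgroup.mem_center_iff]
  constructor
  · intro h g
    rw [commutatorElement_eq_one_iff_mul_comm]
    exact (h g).symm
  · intro h g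
    have := h g
    rw [commutatorElement_eq_one_iff_mul_comm] at this
    exact this.symm

section
variable {L : List (List (ℕ × Bool))} (hL : PA L) {G : Type} [Group G] (hG : Sat L G)
include hL hG

/-- the main tool -/
theorem comm_of_norm (S : Set G) (g : G) (hc : ∀ s ∈ S, ∀ t ∈ S, s * t = t * s)
    (h1 : ∀ s ∈ S, g * s * g⁻¹ ∈ Subgroup.closure S)
    (h2 : ∀ s ∈ S, g⁻¹ * s * g ∈ Subgroup.closure S) : ∀ s ∈ S, g * s = s * g := by
  set A := Subgroup.closure S with hA
  have hAc : ∀ x ∈ A, ∀ y ∈ A, x * y = y * x := by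
    intro x hx y hy
    exact Subgroup.closure_induction₂ (p := fun x y _ _ => x * y = y * x)
      (fun x y hx hy => hc x hx y hy) (fun x _ => by simp) (fun x _ => by simp)
      (fun x y z _ _ _ hxz hyz => by rw [mul_assoc, hyz, ← mul_assoc, hxz, mul_assoc])
      (fun x y z _ _ _ hxy hxz => by rw [← mul_assoc, hxy, mul_assoc, hxz, mul_assoc])
      (fun x y _ _ h => by
        have := congrArg (fun t => x⁻¹ * t * x⁻¹) h
        simpa [mul_assoc] using this.symm)
      (fun x y _ _ h => by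
        have := congrArg (fun t => y⁻¹ * t * y⁻¹) h
        simpa [mul_assoc] using this.symm) hx hy
  have hn1 : ∀ x ∈ A, g * x * g⁻¹ ∈ A := by
    intro x hx
    refine Subgroup.closure_induction (p := fun x _ => g * x * g⁻¹ ∈ A) (fun x hx => h1 x hx)
      (by simp) (fun x y _ _ hx hy => ?_) (fun x _ hx => ?_) hx
    · have := A.mul_mem hx hy
      simpa [mul_assoc] using this
    · have := A.inv_mem hx
      simpa [mul_assoc] using this
  have hn2 : ∀ x ∈ A, g⁻¹ * x * g ∈ A := by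
    intro x hx
    refine Subgroup.closure_induction (p := fun x _ => g⁻¹ * x * g ∈ A) (fun x hx => h2 x hx)
      (by simp) (fun x y _ _ hx hy => ?_) (fun x _ hx => ?_) hx
    · have := A.mul_mem hx hy
      simpa [mul_assoc] using this
    · have := A.inv_mem hx
      simpa [mul_assoc] using this
  -- powers of g normalise A
  have hnz : ∀ (n : ℤ) (x : G), x ∈ A → g ^ n * x * (g ^ n)⁻¹ ∈ A := by
    intro n
    induction n using Int.induction_on with
    | zero => intro x hx; simpa using hx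
    | succ n ih =>
      intro x hx
      have := ih _ (hn1 x hx)
      rw [zpow_add_one]
      simpa [mul_assoc] using this
    | pred n ih =>
      intro x hx
      have := ih _ (hn2 x hx)
      rw [zpow_sub_one]
      simpa [mul_assoc] using this
  -- the subgroup H = A * <g>
  let H : Subgroup G :=
    { carrier := {x | ∃ a ∈ A, ∃ n : ℤ, x = a * g ^ n}
      one_mem' := ⟨1, A.one_mem, 0, by simp⟩
      mul_mem' := by
        rintro x y ⟨a, ha, n, rfl⟩ ⟨b, hb, m, rfl⟩
        refine ⟨a * (g ^ n * b * (g ^ n)⁻¹), A.mul_mem ha (hnz n b hb), n + m, ?_⟩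
        rw [zpow_add]
        group
      inv_mem' := by
        rintro x ⟨a, ha, n, rfl⟩
        refine ⟨g ^ (-n) * a⁻¹ * (g ^ (-n))⁻¹, hnz (-n) _ (A.inv_mem ha), -n, ?_⟩
        group }
  have hAH : ∀ x ∈ A, x ∈ H := fun x hx => ⟨x, hx, 0, by simp⟩
  have hgH : g ∈ H := ⟨1, A.one_mem, 1, by simp⟩
  have hsat : Sat L H := sat_subgroup hG H
  have hHn : ∀ h ∈ H, ∀ x ∈ A, h * x * h⁻¹ ∈ A := by
    rintro h ⟨a, ha, n, rfl⟩ x hx
    have := A.mul_mem (A.mul_mem ha (hnz n x hx)) (A.inv_mem ha)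
    simpa [mul_assoc] using this
  have hmet : Metab H := by
    refine ⟨A.subgroupOf H, ⟨?_⟩, ?_, ?_⟩
    · intro x hx h
      rw [Subgroup.mem_subgroupOf] at hx ⊢
      exact hHn h h.2 x hx
    · rintro ⟨⟨x, hx⟩, hx'⟩ ⟨⟨y, hy⟩, hy'⟩
      rw [Subgroup.mem_subgroupOf] at hx' hy'
      have := hAc x hx' y hy'
      ext
      exact this
    · intro p q
      obtain ⟨⟨x, hx⟩, rfl⟩ := QuotientGroup.mk_surjective p
      obtain ⟨⟨y, hy⟩, rfl⟩ := QuotientGroup.mk_surjective q
      rw [← QuotientGroup.mk_mul, ← QuotientGroup.mk_mul, QuotientGroup.eq]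
      rw [Subgroup.mem_subgroupOf]
      obtain ⟨a, ha, n, hxe⟩ := hx
      obtain ⟨b, hb, m, hye⟩ := hy
      have h3 : ((a * g ^ n) * (b * g ^ m))⁻¹ * ((b * g ^ m) * (a * g ^ n)) =
          g ^ (-(n + m)) * ((g ^ n * b⁻¹ * (g ^ n)⁻¹) * (a⁻¹ * b) * (g ^ m * a * (g ^ m)⁻¹)) *
            (g ^ (-(n + m)))⁻¹ := by
        have h1 : g ^ (-(n + m)) = (g ^ m)⁻¹ * (g ^ n)⁻¹ := by
          rw [neg_add_rev, zpow_add, zpow_neg, zpow_neg]
        have h4 : g ^ n * g ^ m = g ^ m * g ^ n := by rw [← zpow_add, ← zpow_add, add_comm]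
        rw [h1]
        simp only [mul_inv_rev, inv_inv, mul_assoc, inv_mul_cancel_left]
        rw [h4, inv_mul_cancel_left]
      show ((x * y)⁻¹ * (y * x)) ∈ A
      rw [hxe, hye, h3]
      exact hnz _ _ (A.mul_mem (A.mul_mem (hnz n _ (A.inv_mem hb)) (A.mul_mem (A.inv_mem ha) hb))
        (hnz m _ ha))
  have hcomm := hL H hmet hsat
  intro s hs
  have := hcomm ⟨g, hgH⟩ ⟨s, hAH s (Subgroup.subset_closure hs)⟩
  exact congrArg Subtype.val this

/-- class two subgroups are abelian -/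
theorem comm_of_commutator (d s : G) (h1 : ⁅d, s⁆ * d = d * ⁅d, s⁆)
    (h2 : ⁅d, s⁆ * s = s * ⁅d, s⁆) : d * s = s * d := by
  have e1 : s * d * s⁻¹ = ⁅d, s⁆⁻¹ * d := by
    rw [commutatorElement_def]; group
  have e2 : s⁻¹ * d * s = ⁅d, s⁆ * d := by
    have : ⁅d, s⁆ = s⁻¹ * ⁅d, s⁆ * s := by
      rw [mul_assoc, h2]; group
    rw [this, commutatorElement_def]
    group
  have hz : ⁅d, s⁆ ∈ Subgroup.closure ({⁅d, s⁆, d} : Set G) :=
    Subgroup.subset_closure (by simp)
  have hd : d ∈ Subgroup.closure ({⁅d, s⁆, d} : Set G) :=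
    Subgroup.subset_closure (by simp)
  have hs1 : s * ⁅d, s⁆ * s⁻¹ = ⁅d, s⁆ := by rw [← h2]; group
  have hs2 : s⁻¹ * ⁅d, s⁆ * s = ⁅d, s⁆ := by rw [mul_assoc, h2]; group
  have := comm_of_norm hL hG ({⁅d, s⁆, d} : Set G) s
    (by
      intro x hx y hy
      simp only [Set.mem_insert_iff, Set.mem_singleton_iff] at hx hy
      rcases hx with rfl | rfl <;> rcases hy with rfl | rfl
      · rfl
      · exact h1
      · exact h1.symm
      · rfl)
    (by
      intro x hx
      simp only [Set.mem_insert_iff, Set.mem_singleton_iff] at hx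
      rcases hx with rfl | rfl
      · rw [hs1]; exact hz
      · rw [e1]; exact mul_mem (inv_mem hz) hd)
    (by
      intro x hx
      simp only [Set.mem_insert_iff, Set.mem_singleton_iff] at hx
      rcases hx with rfl | rfl
      · rw [hs2]; exact hz
      · rw [e2]; exact mul_mem hz hd)
    d (by simp)
  exact this.symm

theorem comm_of_commutator_center (d s : G) (h : ⁅d, s⁆ ∈ Subgroup.center G) : d * s = s * d :=
  comm_of_commutator hL hG d s ((Subgroup.mem_center_iff.1 h d).symm)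
    ((Subgroup.mem_center_iff.1 h s).symm)

theorem center_of_commutator_center (d : G) (h : ∀ g, ⁅d, g⁆ ∈ Subgroup.center G) :
    d ∈ Subgroup.center G := by
  rw [Subgroup.mem_center_iff]
  intro g
  exact (comm_of_commutator_center hL hG d g (h g)).symm

theorem center_of_quot_center (d : G)
    (h : (QuotientGroup.mk d : G ⧸ Subgroup.center G) ∈ Subgroup.center (G ⧸ Subgroup.center G)) :
    d ∈ Subgroup.center G := by
  apply center_of_commutator_center hL hG
  intro g
  have h1 := Subgroup.mem_center_iff.1 h (QuotientGroup.mk g)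
  rw [← QuotientGroup.mk_mul, ← QuotientGroup.mk_mul, QuotientGroup.eq] at h1
  have h2 := (inferInstance : (Subgroup.center G).Normal).conj_mem _ h1 (g * d)
  have : (g * d) * ((g * d)⁻¹ * (d * g)) * (g * d)⁻¹ = ⁅d, g⁆ := by
    rw [commutatorElement_def]; group
  rwa [this] at h2

/-- all conjugates commute: central -/
theorem center_of_conj (s : G) (h : ∀ g, s * (g * s * g⁻¹) = (g * s * g⁻¹) * s) :
    s ∈ Subgroup.center G := by
  rw [Subgroup.mem_center_iff]
  intro g
  refine comm_of_norm hL hG {x | ∃ g : G, x = g * s * g⁻¹} g ?_ ?_ ?_ s ⟨1, by simp⟩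
  · rintro _ ⟨a, rfl⟩ _ ⟨b, rfl⟩
    have := congrArg (fun t => a * t * a⁻¹) (h (a⁻¹ * b))
    simpa [mul_assoc] using this
  · rintro _ ⟨a, rfl⟩
    exact Subgroup.subset_closure ⟨g * a, by group⟩
  · rintro _ ⟨a, rfl⟩
    exact Subgroup.subset_closure ⟨g⁻¹ * a, by group⟩

theorem comm_of_invol (a b : G) (ha : a ^ 2 = 1) (hb : b ^ 2 = 1) : a * b = b * a := by
  have ha' : a⁻¹ = a := inv_eq_of_mul_eq_one_left (by rw [← sq, ha])
  have hb' : b⁻¹ = b := inv_eq_of_mul_eq_one_left (by rw [← sq, hb])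
  have e : (a * b)⁻¹ = b * a := by rw [mul_inv_rev, ha', hb']
  have hm : b * a ∈ Subgroup.closure ({a * b} : Set G) := by
    rw [← e]; exact inv_mem (Subgroup.subset_closure (by simp))
  have := comm_of_norm hL hG ({a * b} : Set G) a
    (by rintro x hx y hy; simp at hx hy; rw [hx, hy])
    (by
      rintro x hx
      simp only [Set.mem_singleton_iff] at hx
      rw [hx]
      have : a * (a * b) * a⁻¹ = b * a := by
        rw [ha', ← mul_assoc, ← sq, ha, one_mul]
      rw [this]; exact hm)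
    (by
      rintro x hx
      simp only [Set.mem_singleton_iff] at hx
      rw [hx]
      have : a⁻¹ * (a * b) * a = b * a := by group
      rw [this]; exact hm) (a * b) (by simp)
  -- a * (a * b) = (a * b) * a
  rw [← mul_assoc, ← sq, ha, one_mul] at this
  have h2 := congrArg (fun t => a * t) this
  simp only [← mul_assoc] at h2
  rw [← sq, ha, one_mul] at h2
  exact h2

theorem invol_center (s : G) (h : s ^ 2 = 1) : s ∈ Subgroup.center G := by
  apply center_of_conj hL hG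
  intro g
  apply comm_of_invol hL hG _ _ h
  rw [conj_pow, h]
  simp

theorem sq_center (s : G) (h : s ^ 2 ∈ Subgroup.center G) : s ∈ Subgroup.center G := by
  apply center_of_quot_center hL hG
  have hs := sat_quot hG (Subgroup.center G)
  apply invol_center hL hs
  rw [← QuotientGroup.mk_pow]
  exact (QuotientGroup.eq_one_iff _).2 h

theorem two_pow_center (a : ℕ) (s : G) (h : s ^ (2 ^ a) ∈ Subgroup.center G) :
    s ∈ Subgroup.center G := by
  induction a with
  | zero => simpa using h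
  | succ a ih =>
    apply ih
    apply sq_center hL hG
    rw [← pow_mul, ← pow_succ]
    exact h

/-- `(3,3,3)` triangle groups -/
theorem comm_of_three (a b : G) (ha : a ^ 3 = 1) (hb : b ^ 3 = 1) (hab : (a * b) ^ 3 = 1) :
    a * b = b * a := by
  have ha2 : a * a = a⁻¹ := by
    rw [eq_inv_iff_mul_eq_one, ← ha, pow_succ, sq]
  have hb2 : b⁻¹ * b⁻¹ = b := by
    have : b = (b⁻¹) * (b⁻¹) * b ^ 3 := by group
    rw [hb, mul_one] at this; exact this.symm
  have hab' : (a * b * a) * (b * a * b) = 1 := by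
    rw [← hab]; simp only [pow_succ, pow_zero, one_mul, mul_assoc]
  have hts : (a * b⁻¹) * (b⁻¹ * a) = a * b * a := by
    rw [show (a * b⁻¹) * (b⁻¹ * a) = a * (b⁻¹ * b⁻¹) * a by group, hb2]
  have hst : (b⁻¹ * a) * (a * b⁻¹) = (b * a * b)⁻¹ := by
    rw [show (b⁻¹ * a) * (a * b⁻¹) = b⁻¹ * (a * a) * b⁻¹ by group, ha2]; group
  have hcomm : (a * b⁻¹) * (b⁻¹ * a) = (b⁻¹ * a) * (a * b⁻¹) := by
    rw [hts, hst]; exact eq_inv_of_mul_eq_one_left hab'
  have ht : a * b⁻¹ ∈ Subgroup.closure ({a * b⁻¹, b⁻¹ * a} : Set G) :=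
    Subgroup.subset_closure (by simp)
  have hs : b⁻¹ * a ∈ Subgroup.closure ({a * b⁻¹, b⁻¹ * a} : Set G) :=
    Subgroup.subset_closure (by simp)
  have e1 : a * (a * b⁻¹) * a⁻¹ = ((a * b⁻¹) * (b⁻¹ * a))⁻¹ := by
    rw [hts, show a * (a * b⁻¹) * a⁻¹ = (a * a) * b⁻¹ * a⁻¹ by group, ha2]; group
  have e2 : a * (b⁻¹ * a) * a⁻¹ = a * b⁻¹ := by group
  have e3 : a⁻¹ * (a * b⁻¹) * a = b⁻¹ * a := by group
  have e4 : a⁻¹ * (b⁻¹ * a) * a = ((a * b⁻¹) * (b⁻¹ * a))⁻¹ := by
    rw [hts, show a⁻¹ * (b⁻¹ * a) * a = a⁻¹ * b⁻¹ * (a * a) by group, ha2]; group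
  have := comm_of_norm hL hG ({a * b⁻¹, b⁻¹ * a} : Set G) a
    (by
      intro x hx y hy
      simp only [Set.mem_insert_iff, Set.mem_singleton_iff] at hx hy
      rcases hx with rfl | rfl <;> rcases hy with rfl | rfl
      · rfl
      · exact hcomm
      · exact hcomm.symm
      · rfl)
    (by
      intro x hx
      simp only [Set.mem_insert_iff, Set.mem_singleton_iff] at hx
      rcases hx with rfl | rfl
      · rw [e1]; exact inv_mem (mul_mem ht hs)
      · rw [e2]; exact ht)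
    (by
      intro x hx
      simp only [Set.mem_insert_iff, Set.mem_singleton_iff] at hx
      rcases hx with rfl | rfl
      · rw [e3]; exact hs
      · rw [e4]; exact inv_mem (mul_mem ht hs))
    (a * b⁻¹) (by simp)
  -- a * (a * b⁻¹) = a * b⁻¹ * a
  have h2 : a * b⁻¹ = b⁻¹ * a := by
    have := congrArg (fun t => a⁻¹ * t) this
    simpa [mul_assoc] using this
  have h3 := congrArg (fun t => b * t * b) h2
  simpa [mul_assoc] using h3.symm

theorem center_of_three (b : G) (h : ∀ g : G, ⁅b, g⁆ ^ 3 = 1) : b ∈ Subgroup.center G := by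
  apply center_of_commutator_center hL hG
  intro x
  have hcm : ∀ x y : G, ⁅b, x⁆ * ⁅b, y⁆ = ⁅b, y⁆ * ⁅b, x⁆ := by
    intro x y
    have h3 : ⁅b, x⁆⁻¹ * ⁅b, y⁆ = x * ⁅b, x⁻¹ * y⁆ * x⁻¹ := by
      simp only [commutatorElement_def]; group
    have := comm_of_three hL hG (⁅b, x⁆⁻¹) (⁅b, y⁆) (by rw [inv_pow, h x, inv_one]) (h y)
      (by rw [h3, conj_pow, h]; simp)
    have h4 : Commute (⁅b, x⁆⁻¹) (⁅b, y⁆) := this
    exact (inv_inv ⁅b, x⁆ ▸ h4.inv_left : Commute (⁅b, x⁆) (⁅b, y⁆))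
  rw [Subgroup.mem_center_iff]
  intro g
  refine comm_of_norm hL hG {t | ∃ y : G, t = ⁅b, y⁆} g ?_ ?_ ?_ _ ⟨x, rfl⟩
  · rintro _ ⟨y, rfl⟩ _ ⟨z, rfl⟩
    exact hcm y z
  · rintro _ ⟨y, rfl⟩
    have : g * ⁅b, y⁆ * g⁻¹ = ⁅b, g⁆⁻¹ * ⁅b, g * y⁆ := by
      simp only [commutatorElement_def]; group
    rw [this]
    exact mul_mem (inv_mem (Subgroup.subset_closure ⟨g, rfl⟩))
      (Subgroup.subset_closure ⟨g * y, rfl⟩)
  · rintro _ ⟨y, rfl⟩
    have : g⁻¹ * ⁅b, y⁆ * g = ⁅b, g⁻¹⁆⁻¹ * ⁅b, g⁻¹ * y⁆ := by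
      simp only [commutatorElement_def]; group
    rw [this]
    exact mul_mem (inv_mem (Subgroup.subset_closure ⟨g⁻¹, rfl⟩))
      (Subgroup.subset_closure ⟨g⁻¹ * y, rfl⟩)

theorem center_of_three_two (a : ℕ) (b : G) (h : ∀ g : G, ⁅b, g⁆ ^ (3 * 2 ^ a) = 1) :
    b ∈ Subgroup.center G := by
  apply center_of_quot_center hL hG
  have hs := sat_quot hG (Subgroup.center G)
  apply center_of_three hL hs
  intro q
  obtain ⟨g, rfl⟩ := QuotientGroup.mk_surjective q
  have h1 : ⁅b, g⁆ ^ 3 ∈ Subgroup.center G := by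
    apply two_pow_center hL hG a
    rw [← pow_mul, h g]
    exact one_mem _
  have : (⁅(QuotientGroup.mk b : G ⧸ Subgroup.center G), (QuotientGroup.mk g : G ⧸ Subgroup.center G)⁆ ^ 3) =
      (QuotientGroup.mk (⁅b, g⁆ ^ 3) : G ⧸ Subgroup.center G) := by
    simp only [commutatorElement_def]
    rfl
  rw [this]
  exact (QuotientGroup.eq_one_iff _).2 h1

omit hL hG in
theorem bracket_conj (u s : G) : ⁅u, s⁆ * s * ⁅u, s⁆⁻¹ = (u * s * u⁻¹) * s * (u * s * u⁻¹)⁻¹ := by
  rw [commutatorElement_def]; group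

/-- the descent lemma -/
theorem descent (d s : G) (h1 : s * (d * s * d⁻¹) = (d * s * d⁻¹) * s)
    (h2 : d * (s * d * s⁻¹) = (s * d * s⁻¹) * d) : d * s = s * d := by
  apply comm_of_commutator hL hG
  · have e : ⁅d, s⁆ = d * (s * d * s⁻¹)⁻¹ := by rw [commutatorElement_def]; group
    rw [e]
    have : d * (s * d * s⁻¹)⁻¹ = (s * d * s⁻¹)⁻¹ * d := by
      rw [eq_inv_mul_iff_mul_eq, ← mul_assoc, ← h2, mul_assoc, mul_inv_cancel, mul_one]
    calc d * (s * d * s⁻¹)⁻¹ * d = d * ((s * d * s⁻¹)⁻¹ * d) := by rw [mul_assoc]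
      _ = d * (d * (s * d * s⁻¹)⁻¹) := by rw [← this]
  · have e : ⁅d, s⁆ = (d * s * d⁻¹) * s⁻¹ := by rw [commutatorElement_def]
    rw [e]
    calc (d * s * d⁻¹) * s⁻¹ * s = d * s * d⁻¹ := by group
      _ = (d * s * d⁻¹) * s * s⁻¹ := by group
      _ = s * (d * s * d⁻¹) * s⁻¹ := by rw [← h1]
      _ = s * ((d * s * d⁻¹) * s⁻¹) := by rw [mul_assoc]

theorem center_of_P2 (s : G)
    (h : ∀ g : G, s * ((g * s * g⁻¹) * s * (g * s * g⁻¹)⁻¹) =
      ((g * s * g⁻¹) * s * (g * s * g⁻¹)⁻¹) * s) : s ∈ Subgroup.center G := by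
  apply center_of_conj hL hG
  intro g
  symm
  apply descent hL hG
  · exact h g
  · have := congrArg (fun t => g * t * g⁻¹) (h g⁻¹)
    simpa [mul_assoc] using this

theorem center_of_engel3 (s : G) (h : ∀ g : G, ⁅⁅⁅g, s⁆, s⁆, s⁆ = 1) :
    s ∈ Subgroup.center G := by
  apply center_of_P2 hL hG
  intro g
  have h1 := h g
  rw [commutatorElement_eq_one_iff_mul_comm, commutatorElement_def ⁅g, s⁆ s, bracket_conj] at h1
  have h2 := congrArg (fun t => t * s) h1
  simp only [inv_mul_cancel_right] at h2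
  rw [← mul_assoc, inv_mul_cancel_right] at h2
  exact h2.symm

theorem center_of_engel4 (s : G) (h : ∀ g : G, ⁅⁅⁅⁅g, s⁆, s⁆, s⁆, s⁆ = 1 ∧
    ⁅⁅⁅⁅g, s⁻¹⁆, s⁻¹⁆, s⁻¹⁆, s⁻¹⁆ = 1) : s ∈ Subgroup.center G := by
  have key : ∀ s : G, (∀ g : G, ⁅⁅⁅⁅g, s⁆, s⁆, s⁆, s⁆ = 1) → ∀ g : G,
      s * (((g * s * g⁻¹) * s * (g * s * g⁻¹)⁻¹) * s * ((g * s * g⁻¹) * s * (g * s * g⁻¹)⁻¹)⁻¹) =
      (((g * s * g⁻¹) * s * (g * s * g⁻¹)⁻¹) * s * ((g * s * g⁻¹) * s * (g * s * g⁻¹)⁻¹)⁻¹) * s := by
    intro s h g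
    have h1 := h g
    rw [commutatorElement_eq_one_iff_mul_comm, commutatorElement_def ⁅⁅g, s⁆, s⁆ s, bracket_conj,
      bracket_conj] at h1
    have h2 := congrArg (fun t => t * s) h1
    simp only [inv_mul_cancel_right] at h2
    rw [← mul_assoc, inv_mul_cancel_right] at h2
    exact h2.symm
  have hA := key s (fun g => (h g).1)
  have hB := key s⁻¹ (fun g => (h g).2)
  apply center_of_P2 hL hG
  intro g
  symm
  apply descent hL hG
  · exact hA g
  · -- conjugate hB by the element w = c⁻¹ s c, then by c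
    set c := g * s * g⁻¹ with hc
    set w := c⁻¹ * s * c with hw
    have h1 := hB g
    have e1 : g * s⁻¹ * g⁻¹ = c⁻¹ := by rw [hc]; group
    rw [e1] at h1
    have e2 : c⁻¹ * s⁻¹ * c⁻¹⁻¹ = w⁻¹ := by rw [hw]; group
    rw [e2] at h1
    -- s⁻¹ commutes with w⁻¹ s⁻¹ w
    have h2 := congrArg (fun t => (c * w) * t⁻¹ * (c * w)⁻¹) h1
    have e3 : (c * w) * (s⁻¹ * (w⁻¹ * s⁻¹ * w⁻¹⁻¹))⁻¹ * (c * w)⁻¹ =
      (c * s * c⁻¹) * (c * (w * s * w⁻¹) * c⁻¹) := by group
    have e4 : (c * w) * ((w⁻¹ * s⁻¹ * w⁻¹⁻¹) * s⁻¹)⁻¹ * (c * w)⁻¹ =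
      (c * (w * s * w⁻¹) * c⁻¹) * (c * s * c⁻¹) := by group
    have h3 : (c * s * c⁻¹) * (c * (w * s * w⁻¹) * c⁻¹) =
        (c * (w * s * w⁻¹) * c⁻¹) * (c * s * c⁻¹) := by
      rw [← e3, ← e4]; exact h2
    have e5 : c * (w * s * w⁻¹) * c⁻¹ = s * (c * s * c⁻¹) * s⁻¹ := by
      rw [hw]; group
    rw [e5] at h3
    exact h3

theorem comm_of_sq_eq (u v : G) (h : u ^ 2 = v ^ 2) : u * v = v * u := by
  have hc1 : u ^ 2 * u = u * u ^ 2 := by group
  have hc2 : u ^ 2 * v = v * u ^ 2 := by rw [h]; group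
  have hm : (u * v⁻¹)⁻¹ ∈ Subgroup.closure ({u * v⁻¹} : Set G) :=
    inv_mem (Subgroup.subset_closure (by simp))
  have e1 : u * (u * v⁻¹) * u⁻¹ = (u * v⁻¹)⁻¹ := by
    have : u * (u * v⁻¹) * u⁻¹ = u ^ 2 * v⁻¹ * u⁻¹ := by simp only [sq, mul_assoc]
    rw [this, h]; group
  have e2 : u⁻¹ * (u * v⁻¹) * u = (u * v⁻¹)⁻¹ := by
    have h5 : u⁻¹ * (u * v⁻¹) * u = (v ^ 2)⁻¹ * (v * u) := by group
    have h6 : (u * v⁻¹)⁻¹ = (v * u⁻¹) := by group
    rw [h5, h6, ← h, inv_mul_eq_iff_eq_mul]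
    have h7 : u ^ 2 * (v * u⁻¹) = v * u ^ 2 * u⁻¹ := by rw [← hc2]; group
    rw [h7]; group
  have := comm_of_norm hL hG ({u * v⁻¹} : Set G) u
    (by rintro x hx y hy; simp at hx hy; rw [hx, hy])
    (by
      rintro x hx
      simp only [Set.mem_singleton_iff] at hx
      rw [hx, e1]; exact hm)
    (by
      rintro x hx
      simp only [Set.mem_singleton_iff] at hx
      rw [hx, e2]; exact hm) (u * v⁻¹) (by simp)
  have h2 : u * v⁻¹ = v⁻¹ * u := by
    have := congrArg (fun t => u⁻¹ * t) this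
    simpa [mul_assoc] using this
  have h3 := congrArg (fun t => v * t * v) h2
  simpa [mul_assoc] using h3.symm

theorem comm_of_comm_sq (x y : G) (h : ⁅x, y ^ 2⁆ = 1) : ⁅x, y⁆ = 1 := by
  have h1 : (x * y * x⁻¹) ^ 2 = y ^ 2 := by
    rw [conj_pow]
    rw [commutatorElement_eq_one_iff_mul_comm] at h
    rw [h, mul_assoc, mul_inv_cancel, mul_one]
  have h2 := comm_of_sq_eq hL hG (x * y * x⁻¹) y h1
  have h3 : ⁅x, y⁆ ^ 2 = 1 := by
    have e : ⁅x, y⁆ = (x * y * x⁻¹) * y⁻¹ := by rw [commutatorElement_def]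
    have h4 : Commute (x * y * x⁻¹) y⁻¹ := (show Commute (x * y * x⁻¹) y from h2).inv_right
    rw [e, h4.mul_pow, h1]
    group
  have h4 := invol_center hL hG _ h3
  have h5 := comm_of_commutator_center hL hG x y h4
  rw [commutatorElement_eq_one_iff_mul_comm]
  exact h5

theorem comm_of_two_pow (a b : ℕ) (x y : G) (h : ⁅x ^ (2 ^ a), y ^ (2 ^ b)⁆ = 1) : ⁅x, y⁆ = 1 := by
  have key : ∀ (b : ℕ) (x y : G), ⁅x, y ^ (2 ^ b)⁆ = 1 → ⁅x, y⁆ = 1 := by
    intro b
    induction b with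
    | zero => intro x y h; simpa using h
    | succ b ih =>
      intro x y h
      apply ih
      apply comm_of_comm_sq hL hG
      rw [← pow_mul, ← pow_succ]
      exact h
  have h1 := key b _ _ h
  have h2 : ⁅y, x ^ (2 ^ a)⁆ = 1 := by
    rw [commutatorElement_eq_one_iff_mul_comm] at h1 ⊢
    exact h1.symm
  have h3 := key a _ _ h2
  rw [commutatorElement_eq_one_iff_mul_comm] at h3 ⊢
  exact h3.symm

omit hL hG in
theorem mk_commutator (N : Subgroup G) [N.Normal] (x y : G) :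
    ⁅(QuotientGroup.mk x : G ⧸ N), (QuotientGroup.mk y : G ⧸ N)⁆ =
      (QuotientGroup.mk ⁅x, y⁆ : G ⧸ N) := by
  simp only [commutatorElement_def]
  rfl

theorem small_central (s : G) (hs : Small s) : s ∈ Subgroup.center G := by
  have hq := sat_quot hG (Subgroup.center G)
  rcases hs with h | h | h | h | h
  · rw [mem_center_iff']
    intro g
    obtain ⟨a, b, hab⟩ := h g
    apply comm_of_two_pow hL hG a b
    have := comm_of_commutator_center hL hG _ _ hab
    rwa [commutatorElement_eq_one_iff_mul_comm]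
  · apply center_of_quot_center hL hG
    apply center_of_three hL hq
    intro q
    obtain ⟨g, rfl⟩ := QuotientGroup.mk_surjective q
    obtain ⟨a, ha⟩ := h g
    rw [mk_commutator, ← QuotientGroup.mk_pow]
    refine (QuotientGroup.eq_one_iff _).2 ?_
    apply two_pow_center hL hG a
    rw [← pow_mul]
    exact ha
  · apply center_of_conj hL hG
    intro g
    obtain ⟨a, b, ha, hb⟩ := h g
    have h1 : s ^ 3 ∈ Subgroup.center G := by
      apply two_pow_center hL hG a
      rw [← pow_mul]; exact ha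
    have h2 : (s * (g * s * g⁻¹)) ^ 3 ∈ Subgroup.center G := by
      apply two_pow_center hL hG b
      rw [← pow_mul]; exact hb
    have h3 := comm_of_three hL hq (QuotientGroup.mk s) (QuotientGroup.mk (g * s * g⁻¹))
      (by rw [← QuotientGroup.mk_pow]; exact (QuotientGroup.eq_one_iff _).2 h1)
      (by
        rw [← QuotientGroup.mk_pow, conj_pow]
        exact (QuotientGroup.eq_one_iff _).2
          ((inferInstance : (Subgroup.center G).Normal).conj_mem _ h1 g))
      (by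
        rw [← QuotientGroup.mk_mul, ← QuotientGroup.mk_pow]
        exact (QuotientGroup.eq_one_iff _).2 h2)
    apply comm_of_commutator_center hL hG
    have h4 : ⁅(QuotientGroup.mk s : G ⧸ Subgroup.center G),
        (QuotientGroup.mk (g * s * g⁻¹) : G ⧸ Subgroup.center G)⁆ = 1 := by
      rw [commutatorElement_eq_one_iff_mul_comm]; exact h3
    rw [mk_commutator] at h4
    exact (QuotientGroup.eq_one_iff _).1 h4
  · apply center_of_quot_center hL hG
    apply center_of_engel3 hL hq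
    intro q
    obtain ⟨g, rfl⟩ := QuotientGroup.mk_surjective q
    obtain ⟨a, ha⟩ := h g
    rw [mk_commutator, mk_commutator, mk_commutator]
    exact (QuotientGroup.eq_one_iff _).2 (two_pow_center hL hG a _ ha)
  · apply center_of_quot_center hL hG
    apply center_of_engel4 hL hq
    intro q
    obtain ⟨g, rfl⟩ := QuotientGroup.mk_surjective q
    obtain ⟨a, b, ha, hb⟩ := h g
    constructor
    · rw [mk_commutator, mk_commutator, mk_commutator, mk_commutator]
      exact (QuotientGroup.eq_one_iff _).2 (two_pow_center hL hG a _ ha)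
    · rw [← QuotientGroup.mk_inv, mk_commutator, mk_commutator, mk_commutator, mk_commutator]
      exact (QuotientGroup.eq_one_iff _).2 (two_pow_center hL hG b _ hb)

end

theorem metab_finite {L : List (List (ℕ × Bool))} (hL : PA L) (G : Type) [Group G] (hf : Finite G)
    (hG : Sat L G) : Comm G := by
  by_contra hc
  obtain ⟨H, hH, hc'⟩ := exists_metab_of_finite G hf hc
  exact hc' (hL H hH (sat_subgroup hG H))

theorem tame_comm {L : List (List (ℕ × Bool))} (hL : PA L) (G : Type) [Group G] (hT : Tame G)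
    (hG : Sat L G) : Comm G := by
  induction hT with
  | finite G h => exact metab_finite hL G h hG
  | comm G h => exact h
  | small G S hS h ih =>
    have hq := ih (sat_quot hG _)
    have hle : Subgroup.normalClosure S ≤ Subgroup.center G := by
      apply Subgroup.normalClosure_le_normal
      intro s hs
      exact small_central hL hG s (hS s hs)
    intro a b
    have h1 := hq (QuotientGroup.mk a) (QuotientGroup.mk b)
    rw [← QuotientGroup.mk_mul, ← QuotientGroup.mk_mul, QuotientGroup.eq] at h1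
    have h2 := (inferInstance : (Subgroup.center G).Normal).conj_mem _ (hle h1) (a * b)
    have e : (a * b) * ((a * b)⁻¹ * (b * a)) * (a * b)⁻¹ = ⁅b, a⁆ := by
      rw [commutatorElement_def]; group
    rw [e] at h2
    exact (comm_of_commutator_center hL hG b a h2).symm
  | @ext G _ N hN h₁ h₂ ih₁ ih₂ =>
    exact hL G ⟨N, hN, ih₁ (sat_subgroup hG N), ih₂ (sat_quot hG N)⟩ hG
  | loc G h ih =>
    intro a b
    have hfg : (Subgroup.closure ({a, b} : Set G)).FG := by
      rw [Subgroup.fg_iff]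
      exact ⟨{a, b}, rfl, by simp⟩
    have := ih _ hfg (sat_subgroup hG _) ⟨a, Subgroup.subset_closure (by simp)⟩
      ⟨b, Subgroup.subset_closure (by simp)⟩
    exact congrArg Subtype.val this
  | resid G N hN h₁ h₂ ih =>
    intro a b
    by_contra hne
    have hg : ⁅a, b⁆ ≠ 1 := by
      intro h
      rw [commutatorElement_eq_one_iff_mul_comm] at h
      exact hne h
    have := hN ⁅a, b⁆
    have hq := ih _ hg (sat_quot hG _) (QuotientGroup.mk a) (QuotientGroup.mk b)
    apply h₁ _ hg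
    rw [← QuotientGroup.mk_mul, ← QuotientGroup.mk_mul, QuotientGroup.eq] at hq
    have h2 := (hN ⁅a, b⁆).conj_mem _ hq (a * b)
    have e : (a * b) * ((a * b)⁻¹ * (b * a)) * (a * b)⁻¹ = ⁅b, a⁆ := by
      rw [commutatorElement_def]; group
    rw [e] at h2
    have h3 : ⁅a, b⁆ = ⁅b, a⁆⁻¹ := (commutatorElement_inv b a).symm
    have h4 : ∀ M : Subgroup G, ⁅b, a⁆ ∈ M → ⁅a, b⁆ ∈ M := by
      intro M hM; rw [h3]; exact inv_mem hM
    exact h4 _ h2

end Pool.Agent.PAB
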