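import Pool.Agent.PAB.Defs
import Pool.Agent.PAB.MM
import Pool.Agent.PAB.Comp
import Pool.Agent.PAB.Fox
import Pool.Agent.PAB.FoxC
import Pool.Agent.PAB.HeisW
import Pool.Agent.PAB.Dich
import Pool.Agent.PAB.TwoEl

set_option autoImplicit false

open scoped commutatorElement

namespace Pool.Agent.PAB

/-! ### the test is sound: finite models -/

/-- elements of `Aff R` whose unit part has order dividing `r` -/
def affSub (R : Type) [CommRing R] (r : ℕ) : Subgroup (Aff R) where
  carrier := {x | x.u ^ r = 1}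
  one_mem' := one_pow r
  mul_mem' := by
    intro x y hx hy
    show (x * y).u ^ r = 1
    rw [Aff.mul_u, mul_pow]
    show x.u ^ r * y.u ^ r = 1
    rw [hx, hy, one_mul]
  inv_mem' := by
    intro x hx
    show (x⁻¹).u ^ r = 1
    rw [Aff.inv_u, inv_pow]
    show (x.u ^ r)⁻¹ = 1
    rw [hx, inv_one]

theorem aff_finite (R : Type) [CommRing R] [Finite R] : Finite (Aff R) := by
  have h : Function.Injective (fun x : Aff R => (x.b, (x.u : R))) := by
    intro x y hxy
    simp only [Prod.mk.injEq] at hxy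
    exact Aff.ext hxy.1 (Units.ext hxy.2)
  exact Finite.of_injective _ h

theorem heis_finite (R : Type) [CommRing R] [Finite R] : Finite (Heis R) := by
  have h : Function.Injective (fun x : Heis R => (x.a, x.b, x.c)) := by
    intro x y hxy
    simp only [Prod.mk.injEq] at hxy
    exact Heis.ext hxy.1 hxy.2.1 hxy.2.2
  exact Finite.of_injective _ h

theorem model_aff (L : List (List (ℕ × Bool))) (p r : ℕ) (hp : 2 ≤ p) (hr : 2 ≤ r)
    (h : ∀ w ∈ L, Cond p r w) :
    ∃ (G : Type) (_ : Group G), Finite G ∧ Sat L G ∧ ¬ Comm G := by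
  have : NeZero p := ⟨by omega⟩
  have : NeZero r := ⟨by omega⟩
  have : Fact (1 < p) := ⟨by omega⟩
  have : Fact (1 < r) := ⟨by omega⟩
  let R := MonoidAlgebra (ZMod p) (Multiplicative (ZMod r))
  have hf0 : Finite (Multiplicative (ZMod r) →₀ ZMod p) := inferInstance
  have hRf : Finite R := Finite.of_equiv _ (MonoidAlgebra.coeffEquiv (R := ZMod p)
    (M := Multiplicative (ZMod r))).symm
  have hRp : (p : R) = 0 := by
    have h1 : algebraMap (ZMod p) R (p : ZMod p) = (p : R) := map_natCast _ p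
    rw [← h1, ZMod.natCast_self, map_zero]
  have haff := aff_finite R
  refine ⟨affSub R r, inferInstance, inferInstance, ?_, ?_⟩
  · intro w hw f
    have h1 := lift_aff_eq_one p r hRp w (h w hw) (fun v => ((f v : affSub R r) : Aff R))
      (fun v => (f v).2)
    have h2 := map_lift_eq (affSub R r).subtype f (FreeGroup.mk w)
    have h3 : (affSub R r).subtype (FreeGroup.lift f (FreeGroup.mk w)) = 1 := by
      rw [h2]; exact h1
    exact (map_eq_one_iff _ (affSub R r).subtype_injective).1 h3
  · intro hc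
    let g : Multiplicative (ZMod r) := Multiplicative.ofAdd 1
    let t : Rˣ := Units.map (MonoidAlgebra.of (ZMod p) (Multiplicative (ZMod r))) (toUnits g)
    have hgr : g ^ r = 1 := by
      show Multiplicative.ofAdd (r • (1 : ZMod r)) = 1
      rw [nsmul_one, ZMod.natCast_self]; rfl
    have ht : t ^ r = 1 := by
      show (Units.map (MonoidAlgebra.of (ZMod p) (Multiplicative (ZMod r))) (toUnits g)) ^ r = 1
      rw [← map_pow, ← map_pow, hgr, map_one, map_one]
    have ht1 : (t : R) ≠ 1 := by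
      intro h
      have h1 : MonoidAlgebra.of (ZMod p) (Multiplicative (ZMod r)) g =
        MonoidAlgebra.of (ZMod p) (Multiplicative (ZMod r)) 1 := by
        rw [map_one]; exact h
      have h2 := MonoidAlgebra.of_injective h1
      have h3 : (1 : ZMod r) = 0 := h2
      exact one_ne_zero h3
    have h1 := hc ⟨⟨1, 1⟩, one_pow r⟩ ⟨⟨0, t⟩, ht⟩
    have h2 := congrArg (fun x : affSub R r => (x : Aff R).b) h1
    have h3 : (1 : R) + ((1 : Rˣ) : R) * 0 = 0 + (t : R) * 1 := h2
    apply ht1
    simpa using h3.symm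

theorem model_heis (L : List (List (ℕ × Bool))) (p : ℕ) (hp : 2 ≤ p)
    (h : ∀ w ∈ L, CondH p w) :
    ∃ (G : Type) (_ : Group G), Finite G ∧ Sat L G ∧ ¬ Comm G := by
  have : NeZero p := ⟨by omega⟩
  have : Fact (1 < p) := ⟨by omega⟩
  have := heis_finite (ZMod p)
  refine ⟨Heis (ZMod p), inferInstance, this, ?_, ?_⟩
  · intro w hw f
    exact lift_heis_eq_one p (ZMod.natCast_self p) w (h w hw) f
  · intro hc
    have h1 := congrArg Heis.c (hc ⟨1, 0, 0⟩ ⟨0, 1, 0⟩)
    simp at h1

/-! ### the test is complete -/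

theorem length_le_flatten {L : List (List (ℕ × Bool))} {w : List (ℕ × Bool)} (hw : w ∈ L) :
    w.length ≤ L.flatten.length := by
  rw [List.length_flatten]
  exact List.single_le_sum (by simp) _ (List.mem_map.2 ⟨w, hw, rfl⟩)

theorem test_of_metab (L : List (List (ℕ × Bool))) (h : ¬ PA L) :
    (∃ p r : ℕ, 2 ≤ p ∧ p ≤ bd L ∧ 2 ≤ r ∧ r ≤ bd L ∧ ∀ w ∈ L, Cond p r w) ∨
      (∃ p : ℕ, 2 ≤ p ∧ p ≤ bd L ∧ ∀ w ∈ L, CondH p w) := by
  unfold PA at h
  push Not at h
  obtain ⟨G, iG, hm, hs, hc⟩ := h
  have hlen : ∀ w ∈ L, w.length ≤ L.flatten.length := fun w hw => length_le_flatten hw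
  rcases metab_dichotomy G hm hc with ⟨K, iK, α, hα, hK⟩ | ⟨H, iH, x, y, p, hp, hz, ho, hH⟩
  · left
    have hcK := ringChar.charP K
    have h1 : ∀ w ∈ L, Cond (ringChar K) (orderOf α) w := by
      intro w hw
      exact cond_of_field α (ringChar K) w (hK w (hs w hw))
    have hp1 : ringChar K ≠ 1 := CharP.char_ne_one K (ringChar K)
    have hr1 : orderOf α ≠ 1 := by
      rw [Ne, orderOf_eq_one_iff]; exact hα
    obtain ⟨p', r', hp2, hpb, hr2, hrb, h2⟩ := cond_small L.flatten.length _ _ hp1 hr1 L hlen h1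
    refine ⟨p', r', hp2, ?_, hr2, ?_, h2⟩
    · unfold bd; nlinarith
    · unfold bd; nlinarith
  · right
    have h1 : ∀ w ∈ L, CondH p w := by
      intro w hw
      exact condH_of_central x y p hz ho w (hH w (hs w hw))
    exact condH_small L.flatten.length p hp.ne_one L hlen h1

theorem test_iff (L : List (List (ℕ × Bool))) :
    ¬ ((∃ p r : ℕ, 2 ≤ p ∧ p ≤ bd L ∧ 2 ≤ r ∧ r ≤ bd L ∧ ∀ w ∈ L, Cond p r w) ∨
      (∃ p : ℕ, 2 ≤ p ∧ p ≤ bd L ∧ ∀ w ∈ L, CondH p w)) ↔ PA L := by
  constructor
  · intro h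
    by_contra hc
    exact h (test_of_metab L hc)
  · intro h hc
    have : ∃ (G : Type) (_ : Group G), Finite G ∧ Sat L G ∧ ¬ Comm G := by
      rcases hc with ⟨p, r, hp, _, hr, _, h2⟩ | ⟨p, hp, _, h2⟩
      · exact model_aff L p r hp hr h2
      · exact model_heis L p hp h2
    obtain ⟨G, iG, hf, hs, hc⟩ := this
    exact hc (metab_finite h G hf hs)

theorem PA_iff_finite (L : List (List (ℕ × Bool))) :
    PA L ↔ ∀ (G : Type) [Group G], Finite G → Sat L G → Comm G := by
  constructor
  · intro h G _ hf hs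
    exact metab_finite h G hf hs
  · intro h
    rw [← test_iff]
    intro hc
    have : ∃ (G : Type) (_ : Group G), Finite G ∧ Sat L G ∧ ¬ Comm G := by
      rcases hc with ⟨p, r, hp, _, hr, _, h2⟩ | ⟨p, hp, _, h2⟩
      · exact model_aff L p r hp hr h2
      · exact model_heis L p hp h2
    obtain ⟨G, iG, hf, hs, hc⟩ := this
    exact hc (h G hf hs)

theorem PA_iff_tame (L : List (List (ℕ × Bool))) :
    PA L ↔ ∀ (G : Type) [Group G], Tame G → Sat L G → Comm G := by
  constructor
  · intro h G _ hT hs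
    exact tame_comm h G hT hs
  · intro h G _ hm hs
    obtain ⟨N, hN, h1, h2⟩ := hm
    exact h G (Tame.ext G N (Tame.comm N h1) (Tame.comm (G ⧸ N) h2)) hs

/-! ### exponents -/

theorem lift_single {G : Type} [Group G] (w : List (ℕ × Bool)) (i : ℕ) (x : G) :
    FreeGroup.lift (fun v => if v = i then x else 1) (FreeGroup.mk w) = x ^ (esum w i) := by
  induction w with
  | nil => simp [esum]
  | cons a w ih =>
    obtain ⟨v, e⟩ := a
    have h1 : (FreeGroup.mk ((v, e) :: w) : FreeGroup ℕ) = FreeGroup.mk [(v, e)] * FreeGroup.mk w := by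
      rw [FreeGroup.mul_mk]; rfl
    rw [h1, map_mul, ih]
    have h2 : esum ((v, e) :: w) i = esum [(v, e)] i + esum w i := by
      simp only [esum, List.count_cons, List.count_nil]
      push_cast
      ring
    rw [h2, zpow_add]
    congr 1
    by_cases hv : v = i
    · subst hv
      cases e <;> simp [esum]
    · cases e <;> simp [esum, hv]

theorem pow_esum {L : List (List (ℕ × Bool))} {G : Type} [Group G] (hG : Sat L G)
    {w : List (ℕ × Bool)} (hw : w ∈ L) (i : ℕ) (x : G) : x ^ (esum w i) = 1 := by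
  rw [← lift_single w i x]
  exact hG w hw _

theorem pow_expo {L : List (List (ℕ × Bool))} {G : Type} [Group G] (hG : Sat L G) (x : G) :
    x ^ (expo L) = 1 := by
  have key : ∀ l : List ℕ, (∀ n ∈ l, x ^ n = 1) → x ^ (l.foldr Nat.gcd 0) = 1 := by
    intro l
    induction l with
    | nil => intro _; simp
    | cons n l ih =>
      intro h
      have h1 : x ^ n = 1 := h n (by simp)
      have h2 : x ^ (l.foldr Nat.gcd 0) = 1 := ih (fun m hm => h m (by simp [hm]))
      rw [List.foldr_cons]
      rw [← orderOf_dvd_iff_pow_eq_one] at h1 h2 ⊢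
      exact Nat.dvd_gcd h1 h2
  apply key
  intro n hn
  rw [List.mem_flatMap] at hn
  obtain ⟨w, hw, hn⟩ := hn
  rw [List.mem_map] at hn
  obtain ⟨y, _, rfl⟩ := hn
  have h1 := pow_esum hG hw y.1 x
  rcases Int.natAbs_eq (esum w y.1) with h | h
  · rw [h, zpow_natCast] at h1
    exact h1
  · rw [h, zpow_neg, zpow_natCast, inv_eq_one] at h1
    exact h1

/-! ### reductions -/

/-- The word `u ^ n`. -/
def wpow (u : List (ℕ × Bool)) (n : ℕ) : List (ℕ × Bool) := (List.replicate n u).flatten

/-- The word `⁅u, x_m⁆`. -/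
def wcomm (u : List (ℕ × Bool)) (m : ℕ) : List (ℕ × Bool) :=
  u ++ [(m, true)] ++ FreeGroup.invRev u ++ [(m, false)]

theorem mk_wpow (u : List (ℕ × Bool)) (n : ℕ) :
    (FreeGroup.mk (wpow u n) : FreeGroup ℕ) = FreeGroup.mk u ^ n := by
  induction n with
  | zero => simp [wpow]; rfl
  | succ n ih =>
    have : wpow u (n + 1) = u ++ wpow u n := by
      simp [wpow, List.replicate_succ]
    rw [this, ← FreeGroup.mul_mk, ih, pow_succ']

theorem mk_wcomm (u : List (ℕ × Bool)) (m : ℕ) :
    (FreeGroup.mk (wcomm u m) : FreeGroup ℕ) = ⁅FreeGroup.mk u, FreeGroup.of m⁆ := by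
  rw [commutatorElement_def]
  unfold wcomm
  rw [← FreeGroup.mul_mk, ← FreeGroup.mul_mk, ← FreeGroup.mul_mk, ← FreeGroup.inv_mk]
  rfl

theorem sat_cons (u : List (ℕ × Bool)) (L : List (List (ℕ × Bool))) (G : Type) [Group G] :
    Sat (u :: L) G ↔ (∀ f : ℕ → G, FreeGroup.lift f (FreeGroup.mk u) = 1) ∧ Sat L G := by
  unfold Sat
  simp only [List.mem_cons, forall_eq_or_imp]

/-- a class two extension -/
theorem comm_of_center_quot {L : List (List (ℕ × Bool))} (hL : PA L) {G : Type} [Group G]
    (hG : Sat L G) (h : Comm (G ⧸ Subgroup.center G)) : Comm G := by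
  intro a b
  have h1 := h (QuotientGroup.mk a) (QuotientGroup.mk b)
  rw [← QuotientGroup.mk_mul, ← QuotientGroup.mk_mul, QuotientGroup.eq] at h1
  have h2 := (inferInstance : (Subgroup.center G).Normal).conj_mem _ h1 (a * b)
  have e : (a * b) * ((a * b)⁻¹ * (b * a)) * (a * b)⁻¹ = ⁅b, a⁆ := by
    rw [commutatorElement_def]; group
  rw [e] at h2
  exact (comm_of_commutator_center hL hG b a h2).symm

theorem law_quot_center {G : Type} [Group G] (u : List (ℕ × Bool))
    (h : ∀ f : ℕ → G, FreeGroup.lift f (FreeGroup.mk u) ∈ Subgroup.center G)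
    (f : ℕ → G ⧸ Subgroup.center G) : FreeGroup.lift f (FreeGroup.mk u) = 1 := by
  choose g hg using fun i => QuotientGroup.mk_surjective (f i)
  have h2 := map_lift_eq (QuotientGroup.mk' (Subgroup.center G)) g (FreeGroup.mk u)
  have e : f = fun i => (QuotientGroup.mk' (Subgroup.center G)) (g i) := by
    funext i
    exact (hg i).symm
  rw [e, ← h2]
  exact (QuotientGroup.eq_one_iff _).2 (h g)

/-- powers of two can be dropped -/
theorem drop_two {L : List (List (ℕ × Bool))} (hL : PA L) (u : List (ℕ × Bool)) (a : ℕ) :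
    (∀ (G : Type) [Group G], Sat (wpow u (2 ^ a) :: L) G → Comm G) ↔
    (∀ (G : Type) [Group G], Sat (u :: L) G → Comm G) := by
  constructor
  · intro h G _ hs
    rw [sat_cons] at hs
    apply h G
    rw [sat_cons]
    refine ⟨?_, hs.2⟩
    intro f
    rw [mk_wpow, map_pow, hs.1 f, one_pow]
  · intro h G _ hs
    rw [sat_cons] at hs
    apply comm_of_center_quot hL hs.2
    apply h
    rw [sat_cons]
    refine ⟨?_, sat_quot hs.2 _⟩
    apply law_quot_center
    intro f
    apply two_pow_center hL hs.2 a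
    rw [← map_pow, ← mk_wpow, hs.1 f]
    exact one_mem _

theorem drop_three {L : List (List (ℕ × Bool))} (hL : PA L) (u : List (ℕ × Bool)) (m a : ℕ)
    (hm : ∀ x ∈ u, x.1 ≠ m) :
    (∀ (G : Type) [Group G], Sat (wpow (wcomm u m) (3 * 2 ^ a) :: L) G → Comm G) ↔
    (∀ (G : Type) [Group G], Sat (u :: L) G → Comm G) := by
  constructor
  · intro h G _ hs
    rw [sat_cons] at hs
    apply h G
    rw [sat_cons]
    refine ⟨?_, hs.2⟩
    intro f
    rw [mk_wpow, map_pow, mk_wcomm, commutatorElement_def, map_mul, map_mul, map_mul, map_inv,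
      hs.1 f]
    simp
  · intro h G _ hs
    rw [sat_cons] at hs
    apply comm_of_center_quot hL hs.2
    apply h
    rw [sat_cons]
    refine ⟨?_, sat_quot hs.2 _⟩
    apply law_quot_center
    intro f
    apply center_of_three_two hL hs.2 a
    intro g
    have h1 := hs.1 (fun v => if v = m then g else f v)
    rw [mk_wpow, map_pow, mk_wcomm, commutatorElement_def, map_mul, map_mul, map_mul, map_inv] at h1
    have h2 : FreeGroup.lift (fun v => if v = m then g else f v) (FreeGroup.mk u) =
        FreeGroup.lift f (FreeGroup.mk u) := by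
      rw [FreeGroup.lift_mk, FreeGroup.lift_mk]
      congr 1
      apply List.map_congr_left
      intro x hx
      rw [if_neg (hm x hx)]
    rw [h2] at h1
    simp only [FreeGroup.lift_apply_of, map_inv, if_true] at h1
    rw [commutatorElement_def]
    exact h1

theorem comm_of_expo {L : List (List (ℕ × Bool))} (hL : PA L) (a : ℕ) (ha : expo L ∣ 3 * 2 ^ a)
    (G : Type) [Group G] (hG : Sat L G) : Comm G := by
  intro x y
  have h : x ∈ Subgroup.center G := by
    apply center_of_three_two hL hG a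
    intro g
    obtain ⟨c, hc⟩ := ha
    rw [hc, pow_mul, pow_expo hG, one_pow]
  exact (Subgroup.mem_center_iff.1 h y).symm

theorem sat_replicate (k : ℕ) (G : Type) [Group G] :
    (∀ f : ℕ → G, FreeGroup.lift f (FreeGroup.mk (List.replicate k (0, true))) = 1) ↔
      ∀ x : G, x ^ k = 1 := by
  have e : ∀ f : ℕ → G, FreeGroup.lift f (FreeGroup.mk (List.replicate k (0, true))) = f 0 ^ k := by
    intro f
    rw [FreeGroup.lift_mk]
    simp
  constructor
  · intro h x
    have := h (fun _ => x)
    rwa [e] at this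
  · intro h f
    rw [e]; exact h _

theorem drop_exponent {L : List (List (ℕ × Bool))} (k a : ℕ) (hk : expo L ∣ k * 2 ^ a) :
    (∀ (G : Type) [Group G], Sat L G → Comm G) ↔
      (PA L ∧ ∀ (G : Type) [Group G], Sat (List.replicate k (0, true) :: L) G → Comm G) := by
  constructor
  · intro h
    refine ⟨fun G _ _ hs => h G hs, fun G _ hs => h G ((sat_cons _ _ _).1 hs).2⟩
  · rintro ⟨hL, h⟩ G _ hs
    apply comm_of_center_quot hL hs
    apply h
    rw [sat_cons, sat_replicate]
    refine ⟨?_, sat_quot hs _⟩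
    intro q
    obtain ⟨x, rfl⟩ := QuotientGroup.mk_surjective q
    rw [← QuotientGroup.mk_pow]
    refine (QuotientGroup.eq_one_iff _).2 ?_
    apply two_pow_center hL hs a
    obtain ⟨c, hc⟩ := hk
    rw [← pow_mul, hc, pow_mul, pow_expo hs, one_pow]
    exact one_mem _

end Pool.Agent.PAB
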